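import Pool.Agent.K7.H30.VoA

set_option autoImplicit false

namespace Pool.Agent.J4H35.Vo

open Pool.Agent.K7.H30.Vo

section base

variable {L L' V : Type} [AddCommGroup L] [AddCommGroup L'] [AddCommGroup V]

/-- Strictly Voronoi relevant vectors. -/
def Rel (Λ : Lat L V) (y : L) : Prop :=
  y ≠ 0 ∧ ∀ z, Λ.pr z = Λ.pr y → Λ.q z ≤ Λ.q y → z = y ∨ z = -y

/-- Isometric class preserving correspondences. -/
def Cor (Λ : Lat L V) (Λ' : Lat L' V) (G : AddSubgroup (L × L')) : Prop :=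
  ∀ z ∈ G, Λ'.q z.2 = Λ.q z.1 ∧ Λ'.pr z.2 = Λ.pr z.1

/-- `S` embeds isometrically, preserving the classes, into the other lattice. -/
def Good (Λ : Lat L V) (Λ' : Lat L' V) (S : Set L) : Prop :=
  ∃ G : AddSubgroup (L × L'), Cor Λ Λ' G ∧ ∀ x ∈ S, ∃ x', (x, x') ∈ G

lemma Cor.b {Λ : Lat L V} {Λ' : Lat L' V} {G : AddSubgroup (L × L')} (h : Cor Λ Λ' G)
    {x y : L} {x' y' : L'} (hx : (x, x') ∈ G) (hy : (y, y') ∈ G) : Λ'.b x' y' = Λ.b x y := by
  have h1 := (h _ hx).1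
  have h2 := (h _ hy).1
  have h3 := (h _ (G.add_mem hx hy)).1
  simp only [Prod.fst_add, Prod.snd_add] at h1 h2 h3
  rw [Lat.q_add, Lat.q_add, h1, h2] at h3
  linarith

lemma Good.mono {Λ : Lat L V} {Λ' : Lat L' V} {S T : Set L} (h : Good Λ Λ' S)
    (hT : T ⊆ (AddSubgroup.closure S : Set L)) : Good Λ Λ' T := by
  obtain ⟨G, hG, hS⟩ := h
  refine ⟨G, hG, ?_⟩
  intro x hx
  have hx' := hT hx
  clear hx
  induction hx' using AddSubgroup.closure_induction with
  | mem x hx => exact hS x hx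
  | zero => exact ⟨0, G.zero_mem⟩
  | add x y _ _ h1 h2 =>
    obtain ⟨x', hx'⟩ := h1
    obtain ⟨y', hy'⟩ := h2
    exact ⟨x' + y', G.add_mem hx' hy'⟩
  | neg x _ h1 =>
    obtain ⟨x', hx'⟩ := h1
    exact ⟨-x', G.neg_mem hx'⟩

/-- Equality of Gram matrices and classes gives a correspondence. -/
lemma good_of_gram {Λ : Lat L V} {Λ' : Lat L' V} {ι : Type} (p : ι → L) (r : ι → L')
    (hpr : ∀ i, Λ'.pr (r i) = Λ.pr (p i)) (hb : ∀ i j, Λ'.b (r i) (r j) = Λ.b (p i) (p j)) :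
    Good Λ Λ' (Set.range p) := by
  set G : AddSubgroup (L × L') := AddSubgroup.closure (Set.range (fun i => (p i, r i))) with hG
  have key1 : ∀ i, ∀ z ∈ G, Λ'.b (r i) z.2 = Λ.b (p i) z.1 := by
    intro i z hz
    rw [hG] at hz
    induction hz using AddSubgroup.closure_induction with
    | mem x hx => obtain ⟨j, rfl⟩ := hx; exact hb i j
    | zero => simp only [Prod.fst_zero, Prod.snd_zero]; rw [Λ'.zero_right, Λ.zero_right]
    | add x y _ _ h1 h2 =>
      simp only [Prod.fst_add, Prod.snd_add]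
      rw [Λ'.add_right, Λ.add_right, h1, h2]
    | neg x _ h1 =>
      simp only [Prod.fst_neg, Prod.snd_neg]
      rw [Λ'.neg_right, Λ.neg_right, h1]
  have key2 : ∀ w ∈ G, ∀ z ∈ G, Λ'.b w.2 z.2 = Λ.b w.1 z.1 := by
    intro w hw z hz
    rw [hG] at hw
    induction hw using AddSubgroup.closure_induction with
    | mem x hx => obtain ⟨j, rfl⟩ := hx; exact key1 j z hz
    | zero => simp only [Prod.fst_zero, Prod.snd_zero]; rw [Λ'.zero_left, Λ.zero_left]
    | add x y _ _ h1 h2 =>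
      simp only [Prod.fst_add, Prod.snd_add]
      rw [Λ'.add_left, Λ.add_left, h1, h2]
    | neg x _ h1 =>
      simp only [Prod.fst_neg, Prod.snd_neg]
      rw [Λ'.neg_left, Λ.neg_left, h1]
  refine ⟨G, ?_, ?_⟩
  · intro z hz
    refine ⟨key2 z hz z hz, ?_⟩
    rw [hG] at hz
    induction hz using AddSubgroup.closure_induction with
    | mem x hx => obtain ⟨j, rfl⟩ := hx; exact hpr j
    | zero => simp
    | add x y _ _ h1 h2 => simp only [Prod.fst_add, Prod.snd_add, map_add, h1, h2]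
    | neg x _ h1 => simp only [Prod.fst_neg, Prod.snd_neg, map_neg, h1]
  · rintro x ⟨i, rfl⟩
    exact ⟨r i, AddSubgroup.subset_closure ⟨i, rfl⟩⟩

end base

section two

variable {L L' V : Type} [AddCommGroup L] [AddCommGroup L'] [AddCommGroup V] [Module (ZMod 2) V]

lemma rel_strict {Λ : Lat L V} {y : L} (hy : Rel Λ y) {ζ : L} (h0 : ζ ≠ 0) (h1 : ζ ≠ y) :
    Λ.b y ζ < Λ.q ζ := by
  have hpr : Λ.pr (y - (ζ + ζ)) = Λ.pr y := by
    rw [map_sub, map_add, self_add, sub_zero]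
  have hq : Λ.q (y - (ζ + ζ)) = Λ.q y + 4 * Λ.q ζ - 4 * Λ.b y ζ := by
    rw [Λ.q_sub, Λ.q_add, Λ.add_right]
    have : Λ.b ζ ζ = Λ.q ζ := rfl
    rw [this]; ring
  by_contra hcon
  push Not at hcon
  rcases hy.2 _ hpr (by rw [hq]; linarith) with h | h
  · apply h0
    apply Λ.double_eq_zero
    have : ζ + ζ = y - (y - (ζ + ζ)) := by abel
    rw [this, h, sub_self]
  · apply h1
    apply Λ.double_inj
    have : ζ + ζ = y - (y - (ζ + ζ)) := by abel
    rw [this, h]; abel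

lemma rel_neg {Λ : Lat L V} {y : L} (hy : Rel Λ y) : Rel Λ (-y) := by
  refine ⟨neg_ne_zero.mpr hy.1, ?_⟩
  intro z hz hq
  rw [map_neg, neg_eq] at hz
  rw [Λ.q_neg] at hq
  rcases hy.2 z hz hq with h | h
  · right; rw [neg_neg]; exact h
  · left; exact h

/-- Every non relevant non zero vector splits. -/
lemma split_of_not_rel {Λ : Lat L V} {x : L} (hx : x ≠ 0) (h : ¬ Rel Λ x) :
    ∃ u w : L, u ≠ 0 ∧ w ≠ 0 ∧ u + w = x ∧ Λ.q u + Λ.q w ≤ Λ.q x := by
  unfold Rel at h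
  push Not at h
  obtain ⟨z, hz, hq, n1, n2⟩ := h hx
  obtain ⟨u, hu⟩ := Λ.ker (x + z) (by rw [map_add, hz, self_add])
  refine ⟨u, x - u, ?_, ?_, by abel, ?_⟩
  · rintro rfl
    apply n2
    rw [add_zero] at hu
    exact eq_neg_of_add_eq_zero_right hu
  · intro h0
    apply n1
    have : u = x := (sub_eq_zero.mp h0).symm
    rw [this] at hu
    exact add_left_cancel hu
  · have h1 : u - (x - u) = z := by
      have : u - (x - u) = (u + u) - x := by abel
      rw [this, ← hu]; abel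
    have h2 : u + (x - u) = x := by abel
    have e1 : Λ.q x = Λ.q u + Λ.q (x - u) + 2 * Λ.b u (x - u) := by rw [← Λ.q_add, h2]
    have e2 : Λ.q z = Λ.q u + Λ.q (x - u) - 2 * Λ.b u (x - u) := by rw [← Λ.q_sub, h1]
    linarith

/-- Every vector is a sum of relevant vectors of total norm at most the norm of the vector. -/
lemma exists_rep (Λ : Lat L V) : ∀ x : L, ∃ l : List L, (∀ r ∈ l, Rel Λ r) ∧ l.sum = x ∧
    (l.map Λ.q).sum ≤ Λ.q x := by
  apply Λ.induction_q (P := fun x => ∃ l : List L, (∀ r ∈ l, Rel Λ r) ∧ l.sum = x ∧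
    (l.map Λ.q).sum ≤ Λ.q x)
  intro x ih
  by_cases hx : x = 0
  · subst hx
    exact ⟨[], by simp, by simp, by simp [Λ.q_zero]⟩
  by_cases hr : Rel Λ x
  · exact ⟨[x], by simpa using hr, by simp, by simp⟩
  obtain ⟨u, w, hu, hw, huw, hq⟩ := split_of_not_rel hx hr
  have qu := Λ.q_pos hu
  have qw := Λ.q_pos hw
  obtain ⟨l1, a1, a2, a3⟩ := ih u (by linarith)
  obtain ⟨l2, b1, b2, b3⟩ := ih w (by linarith)
  refine ⟨l1 ++ l2, ?_, ?_, ?_⟩
  · intro r hr
    rcases List.mem_append.mp hr with h | h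
    · exact a1 r h
    · exact b1 r h
  · rw [List.sum_append, a2, b2, huw]
  · rw [List.map_append, List.sum_append]; linarith

/-- The same with families. -/
lemma exists_rep_fam (Λ : Lat L V) (x : L) : ∃ (m : ℕ) (R : Fin m → L), (∀ i, Rel Λ (R i)) ∧
    ∑ i, R i = x ∧ ∑ i, Λ.q (R i) ≤ Λ.q x := by
  obtain ⟨l, h1, h2, h3⟩ := exists_rep Λ x
  refine ⟨l.length, fun i => l.get i, fun i => h1 _ (List.get_mem _ _), ?_, ?_⟩
  · rw [← h2]
    simp [Fin.sum_univ_getElem]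
  · refine le_trans (le_of_eq ?_) h3
    rw [← List.sum_ofFn]
    congr 1
    apply List.ext_getElem
    · simp
    · intro i h1 h2
      simp

/-- Relevance is visible from the vonorms. -/
lemma rel_transfer {Λ : Lat L V} {Λ' : Lat L' V} (M : Λ.MinSys) (N : Λ'.MinSys)
    (hf : ∀ v, M.f v = N.f v) {y : L} (hy : Rel Λ y) :
    Rel Λ' (N.y (Λ.pr y)) ∧ Λ'.q (N.y (Λ.pr y)) = Λ.q y := by
  set a := Λ.pr y with ha
  have hMy : M.f a = Λ.q y := by
    have h1 := M.f_le y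
    rw [← ha] at h1
    rcases hy.2 (M.y a) (M.pr_y a) h1 with h | h
    · unfold Lat.MinSys.f; rw [h]
    · unfold Lat.MinSys.f; rw [h, Λ.q_neg]
  have hNy : Λ'.q (N.y a) = Λ.q y := by rw [← hMy, hf]; rfl
  have ha0 : a ≠ 0 := by
    intro h0
    rw [h0, M.f_zero] at hMy
    exact absurd (Λ.q_pos hy.1) (by rw [← hMy]; exact lt_irrefl _)
  refine ⟨⟨N.y_ne ha0, ?_⟩, hNy⟩
  intro z hz hq
  rw [N.pr_y] at hz
  by_contra hno
  push Not at hno
  obtain ⟨n1, n2⟩ := hno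
  obtain ⟨u, hu⟩ := Λ'.ker (N.y a + z) (by rw [map_add, hz, N.pr_y, self_add])
  set w := N.y a - u with hw
  have huw : u + w = N.y a := by rw [hw]; abel
  have huw' : u - w = z := by
    have : u - w = (u + u) - N.y a := by rw [hw]; abel
    rw [this, ← hu]; abel
  have u0 : u ≠ 0 := by
    rintro rfl
    apply n2
    rw [add_zero] at hu
    exact eq_neg_of_add_eq_zero_right hu
  have w0 : w ≠ 0 := by
    intro h0
    apply n1
    rw [← huw', ← huw, h0, sub_zero, add_zero]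
  have e1 : Λ'.q (N.y a) = Λ'.q u + Λ'.q w + 2 * Λ'.b u w := by rw [← Λ'.q_add, huw]
  have e2 : Λ'.q z = Λ'.q u + Λ'.q w - 2 * Λ'.b u w := by rw [← Λ'.q_sub, huw']
  have hle : Λ'.q u + Λ'.q w ≤ Λ.q y := by linarith
  have f1 := N.f_le u
  have f2 := N.f_le w
  have qu := Λ'.q_pos u0
  have qw := Λ'.q_pos w0
  set b := Λ'.pr u with hb
  set c := Λ'.pr w with hc
  have hbc : b + c = a := by rw [hb, hc, ← map_add, huw, N.pr_y]
  by_cases hb0 : b = 0
  · rw [hb0, zero_add] at hbc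
    rw [hbc, ← hf, hMy] at f2
    linarith
  by_cases hc0 : c = 0
  · rw [hc0, add_zero] at hbc
    rw [hbc, ← hf, hMy] at f1
    linarith
  rw [← hf] at f1 f2
  have p1 : Λ.pr (M.y b + M.y c) = a := by rw [map_add, M.pr_y, M.pr_y, hbc]
  have p2 : Λ.pr (M.y b - M.y c) = a := by rw [map_sub, M.pr_y, M.pr_y, sub_eq_add', hbc]
  have g1 := M.f_le' p1
  have g2 := M.f_le' p2
  rw [hMy] at g1 g2
  have s1 : Λ.q (M.y b + M.y c) + Λ.q (M.y b - M.y c) = 2 * M.f b + 2 * M.f c := by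
    rw [Λ.q_add, Λ.q_sub]; unfold Lat.MinSys.f; ring
  have k1 := hy.2 _ (p1.trans ha) (by linarith)
  have k2 := hy.2 _ (p2.trans ha) (by linarith)
  have c1 : M.y b + M.y c = M.y b - M.y c → False := by
    intro h
    apply M.y_ne hc0
    apply Λ.double_eq_zero
    have : M.y c + M.y c = (M.y b + M.y c) - (M.y b - M.y c) := by abel
    rw [this, h, sub_self]
  have c2 : M.y b + M.y c = -(M.y b - M.y c) → False := by
    intro h
    apply M.y_ne hb0
    apply Λ.double_eq_zero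
    have : M.y b + M.y b = (M.y b + M.y c) + (M.y b - M.y c) := by abel
    rw [this, h, neg_add_cancel]
  rcases k1 with k1 | k1 <;> rcases k2 with k2 | k2
  · exact c1 (k1.trans k2.symm)
  · exact c2 (by rw [k1, k2, neg_neg])
  · exact c2 (by rw [k1, k2])
  · exact c1 (k1.trans k2.symm)

omit [Module (ZMod 2) V] in
/-- In a correspondence, a relevant vector goes to the relevant vector of its class. -/
lemma cor_rel {Λ : Lat L V} {Λ' : Lat L' V} {G : AddSubgroup (L × L')} (hG : Cor Λ Λ' G)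
    {x : L} {x' y' : L'} (hx : (x, x') ∈ G) (hy : Rel Λ' y') (hpr : Λ'.pr y' = Λ.pr x)
    (hq : Λ'.q y' = Λ.q x) : x' = y' ∨ x' = -y' := by
  have h := hG _ hx
  simp only at h
  exact hy.2 x' (h.2.trans hpr.symm) (by rw [h.1, hq])

/-- All polygons of weight less than `ω` are good. -/
def Light (Λ : Lat L V) (Λ' : Lat L' V) (ω : ℝ) : Prop :=
  ∀ (ι : Type) [Fintype ι] (x : ι → L), ∑ i, x i = 0 → ∑ i, Λ.q (x i) < ω →
    Good Λ Λ' (Set.range x)

/-- Bad polygons of weight `ω`. -/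
structure Bad (Λ : Lat L V) (Λ' : Lat L' V) (ω : ℝ) {ι : Type} [Fintype ι] (p : ι → L) : Prop where
  rel : ∀ i, Rel Λ (p i)
  sum : ∑ i, p i = 0
  wt : ∑ i, Λ.q (p i) = ω
  bad : ¬ Good Λ Λ' (Set.range p)

/-- Refinement of a bad polygon. -/
lemma refine {Λ : Lat L V} {Λ' : Lat L' V} {ω : ℝ} (H : Light Λ Λ' ω) {κ : Type} [Fintype κ]
    [DecidableEq κ] (X : κ → L) (hs : ∑ t, X t = 0) (hw : ∑ t, Λ.q (X t) ≤ ω)
    (hb : ¬ Good Λ Λ' (Set.range X)) :
    ∃ (ι : Type) (_ : Fintype ι) (_ : DecidableEq ι) (p : ι → L), Bad Λ Λ' ω p ∧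
      ((∀ t, X t ≠ 0) → Fintype.card κ ≤ Fintype.card ι) := by
  choose k R h1 h2 h3 using fun t => exists_rep_fam Λ (X t)
  have hsum : ∑ i : (Σ t : κ, Fin (k t)), R i.1 i.2 = 0 := by
    rw [Fintype.sum_sigma]
    simp only [h2, hs]
  have hwt : ∑ i : (Σ t : κ, Fin (k t)), Λ.q (R i.1 i.2) ≤ ω := by
    rw [Fintype.sum_sigma]
    exact le_trans (Finset.sum_le_sum (fun t _ => h3 t)) hw
  have hbad : ¬ Good Λ Λ' (Set.range (fun i : (Σ t : κ, Fin (k t)) => R i.1 i.2)) := by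
    intro hg
    apply hb
    refine hg.mono ?_
    rintro _ ⟨t, rfl⟩
    rw [← h2 t]
    apply AddSubgroup.sum_mem
    intro a _
    exact AddSubgroup.subset_closure ⟨⟨t, a⟩, rfl⟩
  refine ⟨Σ t : κ, Fin (k t), inferInstance, inferInstance, fun i => R i.1 i.2,
    ⟨fun i => h1 _ _, hsum, ?_, hbad⟩, ?_⟩
  · apply le_antisymm hwt
    by_contra hlt
    push Not at hlt
    exact hbad (H _ _ hsum hlt)
  · intro h0
    have hsurj : Function.Surjective (fun i : (Σ t : κ, Fin (k t)) => i.1) := by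
      intro t
      have hk : 0 < k t := by
        by_contra hk
        have hk0 : k t = 0 := by omega
        apply h0 t
        rw [← h2 t]
        have : IsEmpty (Fin (k t)) := by rw [hk0]; infer_instance
        exact Fintype.sum_empty _
      exact ⟨⟨t, ⟨0, hk⟩⟩, rfl⟩
    exact Fintype.card_le_of_surjective _ hsurj

end two

end Pool.Agent.J4H35.Vo
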