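import Mathlib

set_option autoImplicit false

namespace Pool.Agent.J4H35.Vo

section comb

variable {ι : Type}

/-- `s` aligns the signed graph `(E, σ)` on the set `S`. -/
def Al (E : ι → ι → Prop) (σ : ι → ι → ℤˣ) (S : Set ι) (s : ι → ℤˣ) : Prop :=
  ∀ x ∈ S, ∀ y ∈ S, E x y → s x * s y = σ x y

/-- Reachability inside `S`. -/
def Rch (E : ι → ι → Prop) (S : Set ι) (x y : ι) : Prop :=
  x ∈ S ∧ Relation.ReflTransGen (fun a b => E a b ∧ a ∈ S ∧ b ∈ S) x y

variable {E : ι → ι → Prop} {σ : ι → ι → ℤˣ} {S T A : Set ι} {s t : ι → ℤˣ}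

lemma Rch.refl {x : ι} (h : x ∈ S) : Rch E S x x := ⟨h, Relation.ReflTransGen.refl⟩

lemma Rch.mem {x y : ι} (h : Rch E S x y) : y ∈ S := by
  obtain ⟨h1, h2⟩ := h
  induction h2 with
  | refl => exact h1
  | tail _ h3 _ => exact h3.2.2

lemma Rch.step {x y z : ι} (h : Rch E S x y) (he : E y z) (hz : z ∈ S) : Rch E S x z :=
  ⟨h.1, h.2.tail ⟨he, h.mem, hz⟩⟩

lemma Rch.trans {x y z : ι} (h : Rch E S x y) (h' : Rch E S y z) : Rch E S x z :=
  ⟨h.1, h.2.trans h'.2⟩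

lemma Rch.symm (hE : ∀ x y, E x y → E y x) {x y : ι} (h : Rch E S x y) : Rch E S y x := by
  refine ⟨h.mem, ?_⟩
  have h2 := h.2
  clear h
  induction h2 with
  | refl => exact Relation.ReflTransGen.refl
  | tail _ h3 ih => exact Relation.ReflTransGen.head ⟨hE _ _ h3.1, h3.2.2, h3.2.1⟩ ih

lemma Rch.mono (hST : S ⊆ T) {x y : ι} (h : Rch E S x y) : Rch E T x y := by
  refine ⟨hST h.1, ?_⟩
  have h2 := h.2
  clear h
  induction h2 with
  | refl => exact Relation.ReflTransGen.refl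
  | tail _ h3 ih => exact ih.tail ⟨h3.1, hST h3.2.1, hST h3.2.2⟩

lemma usq (a : ℤˣ) : a * a = 1 := Int.units_mul_self a

lemma al_const (hs : Al E σ S s) (ht : Al E σ T t) (hS : A ⊆ S) (hT : A ⊆ T) {x y : ι}
    (h : Rch E A x y) : s x * t x = s y * t y := by
  obtain ⟨h1, h2⟩ := h
  induction h2 with
  | refl => rfl
  | @tail b c _ h3 ih =>
    rw [ih]
    have e1 := hs b (hS h3.2.1) c (hS h3.2.2) h3.1
    have e2 := ht b (hT h3.2.1) c (hT h3.2.2) h3.1
    have e3 : s b * s c = t b * t c := e1.trans e2.symm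
    calc s b * t b = (s b * s c) * (s c * t b) := by
          rw [mul_assoc, ← mul_assoc (s c), usq, one_mul]
      _ = (t b * t c) * (s c * t b) := by rw [e3]
      _ = (t b * t b) * (s c * t c) := by
          rw [mul_comm (t b) (t c), mul_mul_mul_comm, mul_comm (t c) (s c), mul_comm (s c * t c)]
      _ = s c * t c := by rw [usq, one_mul]

/-- If `v` separates `k` from `l` in `S`, then `k` reaches `v` avoiding `l`. -/
lemma sep_reach {k l v : ι} (hkl : k ≠ l) (hvk : v ≠ k) (hvl : v ≠ l) (h : Rch E S k l)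
    (hs : ¬ Rch E (S \ {v}) k l) : Rch E (S \ {l}) k v := by
  have key : ∀ y, Rch E S k y → Rch E (S \ {l}) k v ∨ Rch E (S \ {v}) k l ∨
      (y ≠ l ∧ y ≠ v ∧ Rch E ((S \ {l}) \ {v}) k y) := by
    intro y hy
    obtain ⟨h1, h2⟩ := hy
    induction h2 with
    | refl =>
      right; right
      exact ⟨hkl, hvk.symm, Rch.refl ⟨⟨h1, hkl⟩, hvk.symm⟩⟩
    | @tail b c _ h3 ih =>
      rcases ih with ih | ih | ⟨i1, i2, i3⟩
      · exact Or.inl ih
      · exact Or.inr (Or.inl ih)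
      · by_cases hcl : c = l
        · subst hcl
          right; left
          refine (i3.mono ?_).step h3.1 ⟨h3.2.2, hvl.symm⟩
          intro z hz
          exact ⟨hz.1.1, hz.2⟩
        · by_cases hcv : c = v
          · subst hcv
            left
            refine (i3.mono ?_).step h3.1 ⟨h3.2.2, hcl⟩
            intro z hz
            exact hz.1
          · right; right
            exact ⟨hcl, hcv, i3.step h3.1 ⟨⟨h3.2.2, hcl⟩, hcv⟩⟩
  rcases key l h with h1 | h1 | h1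
  · exact h1
  · exact absurd h1 hs
  · exact absurd rfl h1.1

variable {M : ι → ι → Prop}

/-- A mismatched pair `(k, l)` for `q` is separated by every `j` such that the complement of
`{n, j}` is aligned. -/
lemma nomis {q n k l j : ι} (hs : Al E σ {x | x ≠ q ∧ x ≠ n} s)
    (ht : Al E σ {x | x ≠ n ∧ x ≠ j} t) (hqn : q ≠ n) (hjq : q ≠ j)
    (hkn : k ≠ n) (hln : l ≠ n)
    (hk : E q k) (hl : E q l) (hm : s k * σ q k ≠ s l * σ q l) (hkj : k ≠ j) (hlj : l ≠ j) :
    ¬ Rch E ({x | x ≠ q ∧ x ≠ n} \ {j}) k l := by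
  intro h
  apply hm
  have h1 : s k * t k = s l * t l := by
    refine al_const hs ht (fun x hx => hx.1) (fun x hx => ⟨hx.1.2, hx.2⟩) h
  have h2 : t q * t k = σ q k := ht q ⟨hqn, hjq⟩ k ⟨hkn, hkj⟩ hk
  have h3 : t q * t l = σ q l := ht q ⟨hqn, hjq⟩ l ⟨hln, hlj⟩ hl
  rw [← h2, ← h3, mul_left_comm, h1, mul_left_comm]

/-- Existence of mismatched pairs. -/
lemma exists_mis (hEs : ∀ x y, E x y → E y x) {q n : ι}
    (hT : ∀ s : ι → ℤˣ, Al E σ {x | x ≠ q ∧ x ≠ n} s →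
      ∃ k, k ≠ q ∧ k ≠ n ∧ M q k ∧ s k * σ q k = -1)
    (hs : Al E σ {x | x ≠ q ∧ x ≠ n} s) :
    ∃ k l, M q k ∧ M q l ∧ s k * σ q k ≠ s l * σ q l ∧ Rch E {x | x ≠ q ∧ x ≠ n} k l := by
  classical
  by_contra hno
  push Not at hno
  set c : ι → ℤˣ := fun x => if ∃ k, M q k ∧ s k * σ q k = -1 ∧ Rch E {x | x ≠ q ∧ x ≠ n} x k
    then -1 else 1 with hc
  have hadj : ∀ x ∈ {x | x ≠ q ∧ x ≠ n}, ∀ y ∈ {x | x ≠ q ∧ x ≠ n}, E x y → c x = c y := by
    intro x hx y hy hxy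
    have : (∃ k, M q k ∧ s k * σ q k = -1 ∧ Rch E {x | x ≠ q ∧ x ≠ n} x k) ↔
        (∃ k, M q k ∧ s k * σ q k = -1 ∧ Rch E {x | x ≠ q ∧ x ≠ n} y k) := by
      constructor
      · rintro ⟨k, h1, h2, h3⟩
        exact ⟨k, h1, h2, ((Rch.refl hy).step (hEs _ _ hxy) hx).trans h3⟩
      · rintro ⟨k, h1, h2, h3⟩
        exact ⟨k, h1, h2, ((Rch.refl hx).step hxy hy).trans h3⟩
    simp only [hc, this]
  have hal : Al E σ {x | x ≠ q ∧ x ≠ n} (fun x => s x * c x) := by
    intro x hx y hy hxy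
    show s x * c x * (s y * c y) = σ x y
    rw [hadj x hx y hy hxy, mul_mul_mul_comm, usq, mul_one]
    exact hs x hx y hy hxy
  obtain ⟨k, hkq, hkn, hMk, hk⟩ := hT _ hal
  have hk' : s k * c k * σ q k = -1 := hk
  rcases Int.units_eq_one_or (s k * σ q k) with h1 | h1
  · -- then `c k = -1`
    have h2 : c k = -1 := by
      rw [mul_right_comm, h1, one_mul] at hk'
      exact hk'
    simp only [hc] at h2
    split_ifs at h2 with h3
    · obtain ⟨k2, h4, h5, h6⟩ := h3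
      refine hno k k2 hMk h4 ?_ h6
      rw [h1, h5]; decide
    · exact absurd h2 (by decide)
  · have h2 : c k = 1 := by
      rw [mul_right_comm, h1] at hk'
      have : c k = (-1) * (-1 * c k) := by rw [← mul_assoc]; simp
      rw [this, hk']; decide
    simp only [hc] at h2
    split_ifs at h2 with h3
    · exact absurd h2 (by decide)
    · exact h3 ⟨k, hMk, h1, Rch.refl ⟨hkq, hkn⟩⟩

/-- The combinatorial hypotheses. -/
structure Hyp (E : ι → ι → Prop) (σ : ι → ι → ℤˣ) (M : ι → ι → Prop) : Prop where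
  Es : ∀ x y, E x y → E y x
  σs : ∀ x y, σ x y = σ y x
  ME : ∀ x y, M x y → E x y
  Ms : ∀ x y, M x y → M y x
  Mn : ∀ x y, M x y → x ≠ y
  nb : ∀ x, ∃ y, M x y
  al : ∀ i j, M i j → ∃ s, Al E σ {x | x ≠ i ∧ x ≠ j} s
  tt : ∀ i j, M i j → ∀ s, Al E σ {x | x ≠ i ∧ x ≠ j} s →
    ∃ k, k ≠ i ∧ k ≠ j ∧ M i k ∧ s k * σ i k = -1

namespace Hyp

variable (H : Hyp E σ M)

include H

omit H in
/-- Mismatched pairs for `q` and for `n` coincide (half). -/
lemma half_eq (H : Hyp E σ M) {q n : ι} (hqn : M q n) (hs : Al E σ {x | x ≠ q ∧ x ≠ n} s)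
    {k l k' l' : ι} (hk : M q k) (hl : M q l) (hm : s k * σ q k ≠ s l * σ q l)
    (hr : Rch E {x | x ≠ q ∧ x ≠ n} k l)
    (hk' : M n k') (hl' : M n l') (hm' : s k' * σ n k' ≠ s l' * σ n l')
    (hr' : Rch E {x | x ≠ q ∧ x ≠ n} k' l') : k' = k ∨ k' = l := by
  by_contra hno
  push Not at hno
  obtain ⟨n1, n2⟩ := hno
  have hne : q ≠ n := H.Mn _ _ hqn
  have hkl : k ≠ l := by rintro rfl; exact hm rfl
  have hkS := hr.1
  have hlS := hr.mem
  have hk'S := hr'.1
  have hl'S := hr'.mem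
  -- separation facts
  have sep1 : ∀ v, M n v → v ≠ q → v ≠ k → v ≠ l →
      ¬ Rch E ({x | x ≠ q ∧ x ≠ n} \ {v}) k l := by
    intro v hv hvq hvk hvl
    obtain ⟨t, ht⟩ := H.al n v hv
    exact nomis hs ht hne hvq.symm hkS.2 hlS.2 (H.ME _ _ hk) (H.ME _ _ hl) hm hvk.symm hvl.symm
  have sep2 : ∀ v, M q v → v ≠ n → v ≠ k' → v ≠ l' →
      ¬ Rch E ({x | x ≠ q ∧ x ≠ n} \ {v}) k' l' := by
    intro v hv hvn hvk hvl
    obtain ⟨t, ht⟩ := H.al q v hv
    have hs' : Al E σ {x | x ≠ n ∧ x ≠ q} s := fun x hx y hy => hs x ⟨hx.2, hx.1⟩ y ⟨hy.2, hy.1⟩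
    have := nomis hs' ht hne.symm hvn.symm hk'S.1 hl'S.1 (H.ME _ _ hk') (H.ME _ _ hl') hm'
      hvk.symm hvl.symm
    intro h
    apply this
    refine Rch.mono ?_ h
    intro x hx
    exact ⟨⟨hx.1.2, hx.1.1⟩, hx.2⟩
  have sk' := sep1 k' hk' hk'S.1 n1 n2
  have r1 : Rch E ({x | x ≠ q ∧ x ≠ n} \ {l}) k k' := sep_reach hkl n1 n2 hr sk'
  have r2 : Rch E ({x | x ≠ q ∧ x ≠ n} \ {k}) l k' :=
    sep_reach hkl.symm n2 n1 (hr.symm H.Es) (fun h => sk' (h.symm H.Es))
  by_cases c1 : l' = k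
  · subst c1
    exact sep2 l hl hlS.2 (Ne.symm n2) hkl.symm (r1.symm H.Es)
  by_cases c2 : l' = l
  · subst c2
    exact sep2 k hk hkS.2 (Ne.symm n1) hkl (r2.symm H.Es)
  have sl' := sep1 l' hl' hl'S.1 c1 c2
  have r3 : Rch E ({x | x ≠ q ∧ x ≠ n} \ {l}) k l' := sep_reach hkl c1 c2 hr sl'
  exact sep2 l hl hlS.2 (Ne.symm n2) (Ne.symm c2) ((r1.symm H.Es).trans r3)

omit H in
lemma pair_eq (H : Hyp E σ M) {q n : ι} (hqn : M q n) (hs : Al E σ {x | x ≠ q ∧ x ≠ n} s)
    {k l k' l' : ι} (hk : M q k) (hl : M q l) (hm : s k * σ q k ≠ s l * σ q l)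
    (hr : Rch E {x | x ≠ q ∧ x ≠ n} k l)
    (hk' : M n k') (hl' : M n l') (hm' : s k' * σ n k' ≠ s l' * σ n l')
    (hr' : Rch E {x | x ≠ q ∧ x ≠ n} k' l') : (k' = k ∧ l' = l) ∨ (k' = l ∧ l' = k) := by
  have h1 := half_eq H hqn hs hk hl hm hr hk' hl' hm' hr'
  have h2 := half_eq H hqn hs hk hl hm hr hl' hk' hm'.symm (hr'.symm H.Es)
  have hne : k' ≠ l' := by rintro rfl; exact hm' rfl
  rcases h1 with h1 | h1 <;> rcases h2 with h2 | h2
  · exact absurd (h1.trans h2.symm) hne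
  · exact Or.inl ⟨h1, h2⟩
  · exact Or.inr ⟨h1, h2⟩
  · exact absurd (h1.trans h2.symm) hne

/-- Structure at a negative edge. -/
lemma edge {q n : ι} (hqn : M q n) :
    ∃ k l, k ≠ l ∧ k ≠ q ∧ k ≠ n ∧ l ≠ q ∧ l ≠ n ∧ M q k ∧ M q l ∧ M n k ∧ M n l ∧
      (∀ v, M q v → v = n ∨ v = k ∨ v = l) ∧
      ∀ s, Al E σ {x | x ≠ q ∧ x ≠ n} s → s k * σ q k ≠ s l * σ q l := by
  obtain ⟨s, hs⟩ := H.al q n hqn
  have hs' : Al E σ {x | x ≠ n ∧ x ≠ q} s := fun x hx y hy => hs x ⟨hx.2, hx.1⟩ y ⟨hy.2, hy.1⟩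
  obtain ⟨k, l, hk, hl, hm, hr⟩ := exists_mis H.Es (H.tt q n hqn) hs
  obtain ⟨k', l', hk', hl', hm', hr''⟩ := exists_mis H.Es (H.tt n q (H.Ms _ _ hqn)) hs'
  have hr' : Rch E {x | x ≠ q ∧ x ≠ n} k' l' := by
    refine Rch.mono ?_ hr''
    intro x hx
    exact ⟨hx.2, hx.1⟩
  have hkl : k ≠ l := by rintro rfl; exact hm rfl
  have hpe := pair_eq H hqn hs hk hl hm hr hk' hl' hm' hr'
  have hkS := hr.1
  have hlS := hr.mem
  have hMnk : M n k ∧ M n l := by
    rcases hpe with ⟨e1, e2⟩ | ⟨e1, e2⟩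
    · exact ⟨e1 ▸ hk', e2 ▸ hl'⟩
    · exact ⟨e2 ▸ hl', e1 ▸ hk'⟩
  refine ⟨k, l, hkl, hkS.1, hkS.2, hlS.1, hlS.2, hk, hl, hMnk.1, hMnk.2, ?_, ?_⟩
  · intro v hv
    by_contra hno
    push Not at hno
    obtain ⟨v1, v2, v3⟩ := hno
    have hvk' : v ≠ k' ∧ v ≠ l' := by
      rcases hpe with ⟨e1, e2⟩ | ⟨e1, e2⟩
      · exact ⟨e1 ▸ v2, e2 ▸ v3⟩
      · exact ⟨e1 ▸ v3, e2 ▸ v2⟩
    have hk'l' : k' ≠ l' := by rintro rfl; exact hm' rfl
    -- `v` separates `k'` and `l'`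
    have sepv : ¬ Rch E ({x | x ≠ q ∧ x ≠ n} \ {v}) k' l' := by
      obtain ⟨t, ht⟩ := H.al q v hv
      have := nomis hs' ht (H.Mn _ _ hqn).symm v1.symm hr'.1.1 hr'.mem.1 (H.ME _ _ hk')
        (H.ME _ _ hl') hm' hvk'.1.symm hvk'.2.symm
      intro h
      apply this
      refine Rch.mono ?_ h
      intro x hx
      exact ⟨⟨hx.1.2, hx.1.1⟩, hx.2⟩
    have rv : Rch E {x | x ≠ q ∧ x ≠ n} k' v :=
      (sep_reach hk'l' hvk'.1 hvk'.2 hr' sepv).mono (fun x hx => hx.1)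
    have rkv : Rch E {x | x ≠ q ∧ x ≠ n} k v := by
      rcases hpe with ⟨e1, _⟩ | ⟨e1, _⟩
      · rw [← e1]; exact rv
      · refine hr.trans ?_
        rw [← e1]; exact rv
    by_cases hmv : s k * σ q k = s v * σ q v
    · -- then `v` and `l` are mismatched
      have hmv' : s v * σ q v ≠ s l * σ q l := by rw [← hmv]; exact hm
      have := pair_eq H hqn hs hv hl hmv' ((rkv.symm H.Es).trans hr) hk' hl' hm' hr'
      rcases this with ⟨e1, e2⟩ | ⟨e1, e2⟩
      · exact hvk'.1 e1.symm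
      · exact hvk'.2 e2.symm
    · have := pair_eq H hqn hs hk hv hmv rkv hk' hl' hm' hr'
      rcases this with ⟨e1, e2⟩ | ⟨e1, e2⟩
      · exact hvk'.2 e2.symm
      · exact hvk'.1 e1.symm
  · intro t ht
    -- alignments on `S` differ by a constant between `k` and `l`
    have h1 : s k * t k = s l * t l := al_const hs ht (fun x hx => hx) (fun x hx => hx) hr
    intro h2
    apply hm
    have h3 : s k * σ q k = (s k * t k) * (t k * σ q k) := by
      rw [mul_assoc, ← mul_assoc (t k), usq, one_mul]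
    have h4 : s l * σ q l = (s l * t l) * (t l * σ q l) := by
      rw [mul_assoc, ← mul_assoc (t l), usq, one_mul]
    rw [h3, h4, h1, h2]

/-- All vertices near a negative edge. -/
lemma quad {q n : ι} (hqn : M q n) :
    ∃ k l, k ≠ l ∧ k ≠ q ∧ k ≠ n ∧ l ≠ q ∧ l ≠ n ∧ M q k ∧ M q l ∧ M n k ∧ M n l ∧ M k l ∧
      (∀ z, z = q ∨ z = n ∨ z = k ∨ z = l) ∧ σ q k * σ q l * σ k l = -1 := by
  obtain ⟨k, l, hkl, hkq, hkn, hlq, hln, Mqk, Mql, Mnk, Mnl, hN, hmis⟩ := H.edge hqn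
  -- neighbours of `k`
  obtain ⟨k2, l2, hkl2, hk2q, hk2k, hl2q, hl2k, Mqk2, Mql2, Mkk2, Mkl2, hN2, -⟩ := H.edge Mqk
  have Mkl : M k l := by
    rcases hN k2 Mqk2 with e | e | e
    · rcases hN l2 Mql2 with e' | e' | e'
      · exact absurd (e.trans e'.symm) hkl2
      · exact absurd e' hl2k
      · rw [← e']; exact Mkl2
    · exact absurd e hk2k
    · rw [← e]; exact Mkk2
  -- neighbourhoods
  have nbr : ∀ a b c d : ι, M a b → (∀ v, M a v → v = b ∨ v = c ∨ v = d) → True := by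
    intros; trivial
  have Nn : ∀ v, M n v → v = q ∨ v = k ∨ v = l := by
    obtain ⟨a, b, hab, ha1, ha2, hb1, hb2, Ma, Mb, -, -, hNn, -⟩ := H.edge (H.Ms _ _ hqn)
    intro v hv
    have hk := hNn k Mnk
    have hl := hNn l Mnl
    rcases hNn v hv with e | e | e
    · exact Or.inl e
    · rcases hk with h | h | h
      · exact absurd h hkq
      · right; left; rw [e, h]
      · rcases hl with h' | h' | h'
        · exact absurd h' hlq
        · right; right; rw [e, h']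
        · exact absurd (h.trans h'.symm) hkl
    · rcases hl with h | h | h
      · exact absurd h hlq
      · rcases hk with h' | h' | h'
        · exact absurd h' hkq
        · exact absurd (h'.trans h.symm) hkl
        · right; left; rw [e, h']
      · right; right; rw [e, h]
  have Nk : ∀ v, M k v → v = q ∨ v = n ∨ v = l := by
    obtain ⟨a, b, hab, ha1, ha2, hb1, hb2, Ma, Mb, -, -, hNn, -⟩ := H.edge (H.Ms _ _ Mqk)
    intro v hv
    have hk := hNn n (H.Ms _ _ Mnk)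
    have hl := hNn l Mkl
    have hnq : n ≠ q := (H.Mn _ _ hqn).symm
    rcases hNn v hv with e | e | e
    · exact Or.inl e
    · rcases hk with h | h | h
      · exact absurd h hnq
      · right; left; rw [e, h]
      · rcases hl with h' | h' | h'
        · exact absurd h' hlq
        · right; right; rw [e, h']
        · exact absurd (h.trans h'.symm) (Ne.symm hln)
    · rcases hl with h | h | h
      · exact absurd h hlq
      · rcases hk with h' | h' | h'
        · exact absurd h' hnq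
        · exact absurd (h'.trans h.symm) (Ne.symm hln)
        · right; left; rw [e, h']
      · right; right; rw [e, h]
  have Nl : ∀ v, M l v → v = q ∨ v = n ∨ v = k := by
    obtain ⟨a, b, hab, ha1, ha2, hb1, hb2, Ma, Mb, -, -, hNn, -⟩ := H.edge (H.Ms _ _ Mql)
    intro v hv
    have hk := hNn n (H.Ms _ _ Mnl)
    have hl := hNn k (H.Ms _ _ Mkl)
    have hnq : n ≠ q := (H.Mn _ _ hqn).symm
    rcases hNn v hv with e | e | e
    · exact Or.inl e
    · rcases hk with h | h | h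
      · exact absurd h hnq
      · right; left; rw [e, h]
      · rcases hl with h' | h' | h'
        · exact absurd h' hkq
        · right; right; rw [e, h']
        · exact absurd (h.trans h'.symm) (Ne.symm hkn)
    · rcases hl with h | h | h
      · exact absurd h hkq
      · rcases hk with h' | h' | h'
        · exact absurd h' hnq
        · exact absurd (h'.trans h.symm) (Ne.symm hkn)
        · right; left; rw [e, h']
      · right; right; rw [e, h]
  -- the triangle `q k l` is unbalanced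
  have htri : σ q k * σ q l * σ k l = -1 := by
    obtain ⟨s, hs⟩ := H.al q n hqn
    have h1 := hmis s hs
    have h2 : s k * s l = σ k l := hs k ⟨hkq, hkn⟩ l ⟨hlq, hln⟩ (H.ME _ _ Mkl)
    rw [← h2]
    have h3 : σ q k * σ q l * (s k * s l) = (s k * σ q k) * (s l * σ q l) := by
      rw [mul_mul_mul_comm, mul_comm (σ q k) (s k), mul_comm (σ q l) (s l)]
    rw [h3]
    rcases Int.units_eq_one_or (s k * σ q k) with e1 | e1 <;>
      rcases Int.units_eq_one_or (s l * σ q l) with e2 | e2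
    · exact absurd (e1.trans e2.symm) h1
    · rw [e1, e2]; decide
    · rw [e1, e2]; decide
    · exact absurd (e1.trans e2.symm) h1
  refine ⟨k, l, hkl, hkq, hkn, hlq, hln, Mqk, Mql, Mnk, Mnl, Mkl, ?_, htri⟩
  intro z
  by_contra hno
  push Not at hno
  obtain ⟨z1, z2, z3, z4⟩ := hno
  obtain ⟨w, hw⟩ := H.nb z
  have hw' := H.Ms _ _ hw
  have w1 : w ≠ q := by
    rintro rfl
    rcases hN z hw' with e | e | e
    · exact z2 e
    · exact z3 e
    · exact z4 e
  have w2 : w ≠ n := by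
    rintro rfl
    rcases Nn z hw' with e | e | e
    · exact z1 e
    · exact z3 e
    · exact z4 e
  have w3 : w ≠ k := by
    rintro rfl
    rcases Nk z hw' with e | e | e
    · exact z1 e
    · exact z2 e
    · exact z4 e
  have w4 : w ≠ l := by
    rintro rfl
    rcases Nl z hw' with e | e | e
    · exact z1 e
    · exact z2 e
    · exact z3 e
  obtain ⟨t, ht⟩ := H.al z w hw
  have e1 : t q * t k = σ q k := ht q ⟨z1.symm, w1.symm⟩ k ⟨z3.symm, w3.symm⟩ (H.ME _ _ Mqk)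
  have e2 : t q * t l = σ q l := ht q ⟨z1.symm, w1.symm⟩ l ⟨z4.symm, w4.symm⟩ (H.ME _ _ Mql)
  have e3 : t k * t l = σ k l := ht k ⟨z3.symm, w3.symm⟩ l ⟨z4.symm, w4.symm⟩ (H.ME _ _ Mkl)
  rw [← e1, ← e2, ← e3] at htri
  have e4 : t q * t k * (t q * t l) * (t k * t l) = 1 := by
    rw [mul_mul_mul_comm (t q) (t k) (t q) (t l), usq, one_mul, usq]
  rw [e4] at htri
  exact absurd htri (by decide)

/-- The main combinatorial result. -/
theorem four (x0 : ι) : ∃ a b c d : ι, a ≠ b ∧ a ≠ c ∧ a ≠ d ∧ b ≠ c ∧ b ≠ d ∧ c ≠ d ∧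
    (∀ z, z = a ∨ z = b ∨ z = c ∨ z = d) ∧ M a b ∧ M a c ∧ M a d ∧ M b c ∧ M b d ∧ M c d ∧
    σ a b * σ a c * σ b c = -1 ∧ σ a b * σ a d * σ b d = -1 ∧ σ a c * σ a d * σ c d = -1 := by
  obtain ⟨y, hy⟩ := H.nb x0
  obtain ⟨k, l, hkl, hkq, hkn, hlq, hln, Mqk, Mql, Mnk, Mnl, Mkl, hall, htri⟩ := H.quad hy
  refine ⟨x0, y, k, l, H.Mn _ _ hy, hkq.symm, hlq.symm, hkn.symm, hln.symm, hkl, hall, hy, Mqk,
    Mql, Mnk, Mnl, Mkl, ?_, ?_, htri⟩
  · -- triangle x0 y k from the edge (x0, l)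
    obtain ⟨k2, l2, hkl2, hk2q, hk2l, hl2q, hl2l, -, -, -, -, -, -, ht⟩ := H.quad Mql
    rcases hall k2 with e | e | e | e
    · exact absurd e hk2q
    · rcases hall l2 with e' | e' | e' | e'
      · exact absurd e' hl2q
      · exact absurd (e.trans e'.symm) hkl2
      · rw [e, e'] at ht; exact ht
      · exact absurd e' hl2l
    · rcases hall l2 with e' | e' | e' | e'
      · exact absurd e' hl2q
      · rw [e, e', H.σs k y, mul_comm (σ x0 k)] at ht; exact ht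
      · exact absurd (e.trans e'.symm) hkl2
      · exact absurd e' hl2l
    · exact absurd e hk2l
  · obtain ⟨k2, l2, hkl2, hk2q, hk2l, hl2q, hl2l, -, -, -, -, -, -, ht⟩ := H.quad Mqk
    rcases hall k2 with e | e | e | e
    · exact absurd e hk2q
    · rcases hall l2 with e' | e' | e' | e'
      · exact absurd e' hl2q
      · exact absurd (e.trans e'.symm) hkl2
      · exact absurd e' hl2l
      · rw [e, e'] at ht; exact ht
    · exact absurd e hk2l
    · rcases hall l2 with e' | e' | e' | e'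
      · exact absurd e' hl2q
      · rw [e, e', H.σs l y, mul_comm (σ x0 l)] at ht; exact ht
      · exact absurd e' hl2l
      · exact absurd (e.trans e'.symm) hkl2

end Hyp

end comb

end Pool.Agent.J4H35.Vo
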