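import Pool.Agent.J4H35.Vo.Pair
import Pool.Agent.J4H35.Vo.Comb

set_option autoImplicit false

namespace Pool.Agent.J4H35.Vo

open Pool.Agent.K7.H30.Vo

section four

variable {L L' V : Type} [AddCommGroup L] [AddCommGroup L'] [AddCommGroup V] [Module (ZMod 2) V]
variable {Λ : Lat L V} {Λ' : Lat L' V} {ω : ℝ} {ι : Type} [Fintype ι] [DecidableEq ι] {p : ι → L}

/-- `r` is a relevant vector of the other lattice, in the class of `x` and with its norm. -/
def Par (Λ : Lat L V) (Λ' : Lat L' V) (x : L) (r : L') : Prop :=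
  Rel Λ' r ∧ Λ'.q r = Λ.q x ∧ Λ'.pr r = Λ.pr x

omit [Module (ZMod 2) V] in
/-- The key property. -/
lemma t_core (hsum : ∑ i, p i = 0) {r : ι → L'} [Module (ZMod 2) V] (hr : ∀ k, Par Λ Λ' (p k) (r k))
    (habs : ∀ k l, Λ'.b (r k) (r l) = Λ.b (p k) (p l) ∨ Λ'.b (r k) (r l) = - Λ.b (p k) (p l))
    {i j : ι} (hij : i ≠ j) (hneg : Λ.b (p i) (p j) < 0)
    (hS : ∀ k l, k ≠ i → k ≠ j → l ≠ i → l ≠ j → Λ'.b (r k) (r l) = Λ.b (p k) (p l))
    (hrij : Λ'.b (r i) (r j) = Λ.b (p i) (p j))
    (hbad : ¬ ∀ k l, Λ'.b (r k) (r l) = Λ.b (p k) (p l)) :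
    ∃ k, k ≠ i ∧ k ≠ j ∧ Λ.b (p i) (p k) < 0 ∧ Λ'.b (r i) (r k) = - Λ.b (p i) (p k) := by
  by_contra hno
  push Not at hno
  have hprs : Λ'.pr (∑ k, r k) = 0 := by
    rw [map_sum]
    have : ∀ k, Λ'.pr (r k) = Λ.pr (p k) := fun k => (hr k).2.2
    rw [Finset.sum_congr rfl (fun k _ => this k), ← map_sum, hsum, map_zero]
  obtain ⟨n, hn⟩ := Λ'.ker _ hprs
  set δ : ι → ι → ℝ := fun a k => Λ'.b (r a) (r k) - Λ.b (p a) (p k) with hδ
  have hδs : ∀ a k, δ a k = δ k a := by
    intro a k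
    simp only [hδ]
    rw [Λ'.symm, Λ.symm]
  have hδd : ∀ a, δ a a = 0 := by
    intro a
    have : Λ'.b (r a) (r a) = Λ.b (p a) (p a) := (hr a).2.1
    simp only [hδ, this, sub_self]
  have hδij : δ i j = 0 := by simp only [hδ, hrij, sub_self]
  have hδS : ∀ k l, k ≠ i → k ≠ j → l ≠ i → l ≠ j → δ k l = 0 := by
    intro k l h1 h2 h3 h4
    simp only [hδ, hS k l h1 h2 h3 h4, sub_self]
  have hn2 : ∀ k, 2 * Λ'.b n (r k) = ∑ a, δ a k := by
    intro k
    have h1 : Λ'.b (∑ a, r a) (r k) = 2 * Λ'.b n (r k) := by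
      rw [hn, Λ'.add_left]; ring
    have h2 : ∑ a, Λ.b (p a) (p k) = 0 := by
      rw [← b_sum_left, hsum, Λ.zero_left]
    rw [← h1, b_sum_left]
    simp only [hδ, Finset.sum_sub_distrib, h2, sub_zero]
  set Φi := ∑ a, δ i a with hΦi
  set Φj := ∑ a, δ j a with hΦj
  have hni : 2 * Λ'.b n (r i) = Φi := by
    rw [hn2, hΦi]; exact Finset.sum_congr rfl (fun a _ => hδs _ _)
  have hnj : 2 * Λ'.b n (r j) = Φj := by
    rw [hn2, hΦj]; exact Finset.sum_congr rfl (fun a _ => hδs _ _)
  have hT : ∀ k, ∑ a, δ a k = (δ i k + δ j k) + (if k = i then Φi else 0)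
      + (if k = j then Φj else 0) := by
    intro k
    by_cases h1 : k = i
    · subst h1
      rw [if_pos rfl, if_neg hij, hδd, hδs j k, hδij, ← hn2, hni]; ring
    · by_cases h2 : k = j
      · subst h2
        rw [if_neg h1, if_pos rfl, hδd, hδij, ← hn2, hnj]; ring
      · rw [if_neg h1, if_neg h2]
        have hpt : ∀ a, δ a k = (if a = i then δ i k else 0) + (if a = j then δ j k else 0) := by
          intro a
          by_cases e1 : a = i
          · subst e1; rw [if_pos rfl, if_neg hij]; ring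
          · by_cases e2 : a = j
            · subst e2; rw [if_neg e1, if_pos rfl]; ring
            · rw [if_neg e1, if_neg e2, hδS a k e1 e2 h1 h2]; ring
        rw [Finset.sum_congr rfl (fun a _ => hpt a)]
        simp only [Finset.sum_add_distrib, Finset.sum_ite_eq', Finset.mem_univ, if_true]
        ring
  have hq : Λ'.q n = Λ'.b n (r i) + Λ'.b n (r j) := by
    have h1 : Λ'.b n (∑ k, r k) = 2 * Λ'.q n := by
      rw [hn, Λ'.add_right]; unfold Lat.q; ring
    have h2 : 4 * Λ'.q n = ∑ k, ∑ a, δ a k := by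
      have : ∑ k, ∑ a, δ a k = ∑ k, 2 * Λ'.b n (r k) :=
        Finset.sum_congr rfl (fun k _ => (hn2 k).symm)
      rw [this, ← Finset.mul_sum, ← b_sum_right, h1]; ring
    rw [Finset.sum_congr rfl (fun k _ => hT k)] at h2
    simp only [Finset.sum_add_distrib, Finset.sum_ite_eq', Finset.mem_univ, if_true] at h2
    rw [← hΦi, ← hΦj] at h2
    linarith
  have hle : ∀ k, δ i k ≤ 0 := by
    intro k
    by_cases h1 : k = i
    · subst h1; rw [hδd]
    · by_cases h2 : k = j
      · subst h2; rw [hδij]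
      · rcases habs i k with h3 | h3
        · simp only [hδ, h3, sub_self, le_refl]
        · have h4 : 0 ≤ Λ.b (p i) (p k) := by
            by_contra h4
            push Not at h4
            exact hno k h1 h2 h4 h3
          simp only [hδ, h3]
          linarith
  have hΦle : Φi ≤ 0 := Finset.sum_nonpos (fun k _ => hle k)
  have hrj := (hr j).1
  have hcase : n = 0 ∨ n = r j := by
    by_contra h
    push Not at h
    have h1 := rel_strict hrj h.1 h.2
    rw [Λ'.symm] at h1
    linarith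
  rcases hcase with h0 | h0
  · have hz : ∀ k, Λ'.b n (r k) = 0 := by intro k; rw [h0, Λ'.zero_left]
    have hΦ0 : Φi = 0 := by rw [← hni, hz]; ring
    have hδi : ∀ k, δ i k = 0 := by
      intro k
      have := (Finset.sum_eq_zero_iff_of_nonpos (fun k _ => hle k)).mp hΦ0
      exact this k (Finset.mem_univ k)
    have hδj : ∀ k, δ j k = 0 := by
      intro k
      by_cases h1 : k = i
      · subst h1; rw [hδs, hδij]
      · by_cases h2 : k = j
        · subst h2; rw [hδd]
        · have h3 := hT k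
          rw [← hn2, hz, if_neg h1, if_neg h2, hδi] at h3
          linarith
    apply hbad
    intro k l
    have hkl : δ k l = 0 := by
      by_cases a1 : k = i
      · subst a1; exact hδi l
      · by_cases a2 : k = j
        · subst a2; exact hδj l
        · by_cases a3 : l = i
          · subst a3; rw [hδs]; exact hδi k
          · by_cases a4 : l = j
            · subst a4; rw [hδs]; exact hδj k
            · exact hδS k l a1 a2 a3 a4
    simp only [hδ] at hkl
    linarith
  · rw [h0] at hq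
    have h1 : Λ'.b (r j) (r i) = Λ.b (p i) (p j) := by rw [Λ'.symm]; exact hrij
    have h2 : Λ'.b (r j) (r j) = Λ'.q (r j) := rfl
    rw [h1, h2] at hq
    linarith

/-- multiplication by a sign -/
def us {A : Type} [AddCommGroup A] (u : ℤˣ) (y : A) : A := (u : ℤ) • y

omit [Module (ZMod 2) V] in
lemma b_us (Λ : Lat L V) (u v : ℤˣ) (y z : L) :
    Λ.b (us u y) (us v z) = ((u * v : ℤˣ) : ℤ) * Λ.b y z := by
  unfold us
  rcases Int.units_eq_one_or u with h1 | h1 <;> rcases Int.units_eq_one_or v with h2 | h2 <;>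
    subst h1 <;> subst h2 <;> simp [Λ.neg_left, Λ.neg_right]

lemma par_us {x : L} {r : L'} (h : Par Λ Λ' x r) (u : ℤˣ) : Par Λ Λ' x (us u r) := by
  unfold us
  rcases Int.units_eq_one_or u with h1 | h1 <;> subst h1
  · simpa using h
  · simp only [Units.val_neg, Units.val_one, neg_smul, one_smul]
    exact ⟨rel_neg h.1, by rw [Λ'.q_neg]; exact h.2.1, by rw [map_neg, neg_eq]; exact h.2.2⟩

/-- A bad polygon with matched pairs is a negative `K_4`. -/
lemma k4 (C : Ctx Λ Λ' ω) (hp : Bad Λ Λ' ω p) (hall : ∀ k l, Good Λ Λ' {p k, p l}) :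
    ∃ a b c d : ι, a ≠ b ∧ a ≠ c ∧ a ≠ d ∧ b ≠ c ∧ b ≠ d ∧ c ≠ d ∧
      (∀ z, z = a ∨ z = b ∨ z = c ∨ z = d) ∧
      Λ.b (p a) (p b) < 0 ∧ Λ.b (p a) (p c) < 0 ∧ Λ.b (p a) (p d) < 0 ∧
      Λ.b (p b) (p c) < 0 ∧ Λ.b (p b) (p d) < 0 ∧ Λ.b (p c) (p d) < 0 ∧
      ∃ α β γ δ : L', Par Λ Λ' (p a) α ∧ Par Λ Λ' (p b) β ∧ Par Λ Λ' (p c) γ ∧ Par Λ Λ' (p d) δ ∧
        Λ'.b α β = Λ.b (p a) (p b) ∧ Λ'.b α γ = Λ.b (p a) (p c) ∧ Λ'.b α δ = Λ.b (p a) (p d) ∧
        Λ'.b β γ = - Λ.b (p b) (p c) ∧ Λ'.b β δ = - Λ.b (p b) (p d) ∧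
        Λ'.b γ δ = - Λ.b (p c) (p d) := by
  classical
  have hpart : ∀ i, ∃ y, Par Λ Λ' (p i) y := fun i => C.partner (hp.rel i)
  choose y hy using hpart
  set σ : ι → ι → ℤˣ := fun k l => if Λ'.b (y k) (y l) = Λ.b (p k) (p l) then 1 else -1 with hσ
  have hσb : ∀ k l, Λ'.b (y k) (y l) = ((σ k l : ℤˣ) : ℤ) * Λ.b (p k) (p l) := by
    intro k l
    simp only [hσ]
    split_ifs with h
    · simp [h]
    · rcases good_pair (hall k l) (hy k) (hy l) with h1 | h1
      · exact absurd h1 h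
      · rw [h1]; simp
  have hne : Nonempty ι := by
    by_contra he
    rw [not_nonempty_iff] at he
    apply hp.bad
    exact good_of_gram p (fun _ => 0) (fun i => he.elim i) (fun i => he.elim i)
  have hmul : ∀ (u : ℤˣ) (x : ℝ), x ≠ 0 → ((u : ℤ) : ℝ) * x = x → u = 1 := by
    intro u x hx h
    rcases Int.units_eq_one_or u with h1 | h1
    · exact h1
    · subst h1
      exfalso
      apply hx
      simp at h
      linarith
  have hmul' : ∀ (u : ℤˣ) (x : ℝ), x ≠ 0 → ((u : ℤ) : ℝ) * x = -x → u = -1 := by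
    intro u x hx h
    rcases Int.units_eq_one_or u with h1 | h1
    · subst h1
      exfalso
      apply hx
      simp at h
      linarith
    · exact h1
  have Hy : Hyp (fun k l => Λ.b (p k) (p l) ≠ 0) σ (fun k l => Λ.b (p k) (p l) < 0) := by
    refine ⟨?_, ?_, ?_, ?_, ?_, ?_, ?_, ?_⟩
    · intro x z h; rw [Λ.symm]; exact h
    · intro x z
      simp only [hσ]
      rw [Λ'.symm, Λ.symm]
    · intro x z h; exact ne_of_lt h
    · intro x z h; rw [Λ.symm]; exact h
    · rintro x z h rfl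
      exact absurd (Λ.q_pos (hp.rel x).1) (not_lt.mpr (le_of_lt h))
    · intro x
      by_contra hno
      push Not at hno
      have h0 := bad_sum_b hp (p x)
      have h1 : 0 < ∑ i, Λ.b (p i) (p x) := by
        apply Finset.sum_pos'
        · intro i _; rw [Λ.symm]; exact hno i
        · exact ⟨x, Finset.mem_univ x, Λ.q_pos (hp.rel x).1⟩
      linarith
    · intro i j hij
      have hne' : i ≠ j := by
        rintro rfl
        exact absurd (Λ.q_pos (hp.rel i).1) (not_lt.mpr (le_of_lt hij))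
      have hg := merge_good C.H hp hne' hij {x | ∃ k, k ≠ i ∧ k ≠ j ∧ x = p k} (fun x hx => hx)
      obtain ⟨G, hG, hGS⟩ := hg
      have hs : ∀ k, ∃ u : ℤˣ, k ≠ i → k ≠ j → (p k, us u (y k)) ∈ G := by
        intro k
        by_cases h1 : k = i
        · exact ⟨1, fun h => absurd h1 h⟩
        by_cases h2 : k = j
        · exact ⟨1, fun _ h => absurd h2 h⟩
        obtain ⟨x', hx'⟩ := hGS (p k) ⟨k, h1, h2, rfl⟩
        rcases cor_rel hG hx' (hy k).1 (hy k).2.2 (hy k).2.1 with h | h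
        · refine ⟨1, fun _ _ => ?_⟩
          unfold us
          simp only [Units.val_one, one_smul]
          rw [← h]; exact hx'
        · refine ⟨-1, fun _ _ => ?_⟩
          unfold us
          simp only [Units.val_neg, Units.val_one, neg_smul, one_smul]
          rw [← h]; exact hx'
      choose s hs using hs
      refine ⟨s, ?_⟩
      intro k hk l hl hkl
      have h1 := hG.b (hs k hk.1 hk.2) (hs l hl.1 hl.2)
      rw [b_us, hσb] at h1
      have h2 : (((s k * s l * σ k l : ℤˣ) : ℤ) : ℝ) * Λ.b (p k) (p l) = Λ.b (p k) (p l) := by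
        refine Eq.trans ?_ h1
        push_cast; ring
      have h3 := hmul _ _ hkl h2
      have h4 : s k * s l = σ k l * (s k * s l * σ k l) := by
        rw [mul_comm (s k * s l), ← mul_assoc, usq, one_mul]
      rw [h4, h3, mul_one]
    · intro i j hij s hs
      have hne' : i ≠ j := by
        rintro rfl
        exact absurd (Λ.q_pos (hp.rel i).1) (not_lt.mpr (le_of_lt hij))
      set e : ι → ℤˣ := fun k => if k = i then 1 else if k = j then σ i j else s k with he
      have hei : e i = 1 := by simp [he]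
      have hej : e j = σ i j := by simp [he, hne'.symm]
      have hek : ∀ k, k ≠ i → k ≠ j → e k = s k := by
        intro k h1 h2; simp [he, h1, h2]
      set r : ι → L' := fun k => us (e k) (y k) with hr
      have hrb : ∀ k l, Λ'.b (r k) (r l) = ((e k * e l * σ k l : ℤˣ) : ℤ) * Λ.b (p k) (p l) := by
        intro k l
        simp only [hr]
        rw [b_us, hσb]; push_cast; ring
      have habs : ∀ k l, Λ'.b (r k) (r l) = Λ.b (p k) (p l) ∨
          Λ'.b (r k) (r l) = - Λ.b (p k) (p l) := by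
        intro k l
        rw [hrb]
        rcases Int.units_eq_one_or (e k * e l * σ k l) with h | h <;> rw [h] <;> simp
      have hS : ∀ k l, k ≠ i → k ≠ j → l ≠ i → l ≠ j → Λ'.b (r k) (r l) = Λ.b (p k) (p l) := by
        intro k l h1 h2 h3 h4
        by_cases h0 : Λ.b (p k) (p l) = 0
        · rcases habs k l with h | h
          · exact h
          · rw [h, h0, neg_zero]
        · have h5 : s k * s l = σ k l := hs k ⟨h1, h2⟩ l ⟨h3, h4⟩ h0
          rw [hrb, hek k h1 h2, hek l h3 h4, h5, usq]; simp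
      have hrij : Λ'.b (r i) (r j) = Λ.b (p i) (p j) := by
        rw [hrb, hei, hej, one_mul, usq]; simp
      have hbad : ¬ ∀ k l, Λ'.b (r k) (r l) = Λ.b (p k) (p l) := by
        intro h
        apply hp.bad
        exact good_of_gram p r (fun k => (par_us (hy k) (e k)).2.2) (fun k l => h k l)
      obtain ⟨k, k1, k2, k3, k4⟩ := t_core hp.sum (fun k => par_us (hy k) (e k)) habs hne' hij hS
        hrij hbad
      refine ⟨k, k1, k2, k3, ?_⟩
      have h5 : (((e i * e k * σ i k : ℤˣ) : ℤ) : ℝ) * Λ.b (p i) (p k) = - Λ.b (p i) (p k) := by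
        rw [← hrb]; exact k4
      have h6 := hmul' _ _ (ne_of_lt k3) h5
      rw [hei, hek k k1 k2, one_mul] at h6
      exact h6
  obtain ⟨a, b, c, d, hab, hac, had, hbc, hbd, hcd, hcov, mab, mac, mad, mbc, mbd, mcd, t1, t2,
    t3⟩ := Hy.four hne.some
  refine ⟨a, b, c, d, hab, hac, had, hbc, hbd, hcd, hcov, mab, mac, mad, mbc, mbd, mcd,
    us 1 (y a), us (σ a b) (y b), us (σ a c) (y c), us (σ a d) (y d), par_us (hy a) _,
    par_us (hy b) _, par_us (hy c) _, par_us (hy d) _, ?_, ?_, ?_, ?_, ?_, ?_⟩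
  · rw [b_us, hσb, one_mul, ← mul_assoc]
    have : (((σ a b : ℤˣ) : ℤ) : ℝ) * (((σ a b : ℤˣ) : ℤ) : ℝ) = 1 := by
      have := usq (σ a b)
      have h2 : ((σ a b * σ a b : ℤˣ) : ℤ) = 1 := by rw [this]; rfl
      push_cast at h2
      exact_mod_cast h2
    rw [this, one_mul]
  · rw [b_us, hσb, one_mul, ← mul_assoc]
    have : (((σ a c : ℤˣ) : ℤ) : ℝ) * (((σ a c : ℤˣ) : ℤ) : ℝ) = 1 := by
      have := usq (σ a c)
      have h2 : ((σ a c * σ a c : ℤˣ) : ℤ) = 1 := by rw [this]; rfl
      push_cast at h2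
      exact_mod_cast h2
    rw [this, one_mul]
  · rw [b_us, hσb, one_mul, ← mul_assoc]
    have : (((σ a d : ℤˣ) : ℤ) : ℝ) * (((σ a d : ℤˣ) : ℤ) : ℝ) = 1 := by
      have := usq (σ a d)
      have h2 : ((σ a d * σ a d : ℤˣ) : ℤ) = 1 := by rw [this]; rfl
      push_cast at h2
      exact_mod_cast h2
    rw [this, one_mul]
  · rw [b_us, hσb, ← mul_assoc]
    have : (((σ a b * σ a c : ℤˣ) : ℤ) : ℝ) * (((σ b c : ℤˣ) : ℤ) : ℝ) = -1 := by
      have h2 : ((σ a b * σ a c * σ b c : ℤˣ) : ℤ) = -1 := by rw [t1]; rfl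
      push_cast at h2 ⊢
      exact_mod_cast h2
    rw [this]; ring
  · rw [b_us, hσb, ← mul_assoc]
    have : (((σ a b * σ a d : ℤˣ) : ℤ) : ℝ) * (((σ b d : ℤˣ) : ℤ) : ℝ) = -1 := by
      have h2 : ((σ a b * σ a d * σ b d : ℤˣ) : ℤ) = -1 := by rw [t2]; rfl
      push_cast at h2 ⊢
      exact_mod_cast h2
    rw [this]; ring
  · rw [b_us, hσb, ← mul_assoc]
    have : (((σ a c * σ a d : ℤˣ) : ℤ) : ℝ) * (((σ c d : ℤˣ) : ℤ) : ℝ) = -1 := by
      have h2 : ((σ a c * σ a d * σ c d : ℤˣ) : ℤ) = -1 := by rw [t3]; rfl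
      push_cast at h2 ⊢
      exact_mod_cast h2
    rw [this]; ring


lemma sum_four {M : Type} [AddCommMonoid M] (f : ι → M) {a b c d : ι} (hab : a ≠ b) (hac : a ≠ c)
    (had : a ≠ d) (hbc : b ≠ c) (hbd : b ≠ d) (hcd : c ≠ d)
    (hcov : ∀ z, z = a ∨ z = b ∨ z = c ∨ z = d) : ∑ i, f i = f a + (f b + (f c + f d)) := by
  have h : (Finset.univ : Finset ι) = {a, b, c, d} := by
    ext z
    simp only [Finset.mem_univ, Finset.mem_insert, Finset.mem_singleton, true_iff]
    exact hcov z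
  rw [h, Finset.sum_insert (by simp [hab, hac, had]), Finset.sum_insert (by simp [hbc, hbd]),
    Finset.sum_insert (by simp [hcd]), Finset.sum_singleton]

/-- There is no bad polygon all of whose pairs are matched. -/
lemma no_matched (C : Ctx Λ Λ' ω) (hp : Bad Λ Λ' ω p) (hall : ∀ k l, Good Λ Λ' {p k, p l}) :
    False := by
  obtain ⟨a, b, c, d, hab, hac, had, hbc, hbd, hcd, hcov, mab, mac, mad, mbc, mbd, mcd, α, β, γ, δ,
    ha, hb, hc, hd, eab, eac, ead, ebc, ebd, ecd⟩ := k4 C hp hall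
  have hs := hp.sum
  rw [sum_four p hab hac had hbc hbd hcd hcov] at hs
  have hw := hp.wt
  rw [sum_four _ hab hac had hbc hbd hcd hcov] at hw
  set A := p a with hA
  set B := p b with hB
  set D := p c with hD
  set E := p d with hE
  -- the relations coming from the vanishing of the sum
  have rA : Λ.q A + Λ.b A B + Λ.b A D + Λ.b A E = 0 := by
    have := congrArg (fun x => Λ.b A x) hs
    simp only [Λ.add_right, Λ.zero_right] at this
    have h2 : Λ.b A A = Λ.q A := rfl
    linarith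
  have rB : Λ.q B + Λ.b A B + Λ.b B D + Λ.b B E = 0 := by
    have := congrArg (fun x => Λ.b B x) hs
    simp only [Λ.add_right, Λ.zero_right] at this
    have h2 : Λ.b B B = Λ.q B := rfl
    rw [Λ.symm B A] at this
    linarith
  have rD : Λ.q D + Λ.b A D + Λ.b B D + Λ.b D E = 0 := by
    have := congrArg (fun x => Λ.b D x) hs
    simp only [Λ.add_right, Λ.zero_right] at this
    have h2 : Λ.b D D = Λ.q D := rfl
    rw [Λ.symm D A, Λ.symm D B] at this
    linarith
  have rE : Λ.q E + Λ.b A E + Λ.b B E + Λ.b D E = 0 := by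
    have := congrArg (fun x => Λ.b E x) hs
    simp only [Λ.add_right, Λ.zero_right] at this
    have h2 : Λ.b E E = Λ.q E := rfl
    rw [Λ.symm E A, Λ.symm E B, Λ.symm E D] at this
    linarith
  -- the half sum in the other lattice
  have hprs : Λ'.pr (α + (β + (γ + δ))) = 0 := by
    rw [map_add, map_add, map_add, ha.2.2, hb.2.2, hc.2.2, hd.2.2, ← map_add, ← map_add,
      ← map_add, hs, map_zero]
  obtain ⟨n, hn⟩ := Λ'.ker _ hprs
  have hnx : ∀ x, 2 * Λ'.b n x = Λ'.b α x + (Λ'.b β x + (Λ'.b γ x + Λ'.b δ x)) := by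
    intro x
    rw [← Λ'.add_left, ← Λ'.add_left, ← Λ'.add_left, hn, Λ'.add_left]; ring
  have qα : Λ'.b α α = Λ.q A := ha.2.1
  have qβ : Λ'.b β β = Λ.q B := hb.2.1
  have qγ : Λ'.b γ γ = Λ.q D := hc.2.1
  have qδ : Λ'.b δ δ = Λ.q E := hd.2.1
  have nα := hnx α
  have nβ := hnx β
  have nγ := hnx γ
  have nδ := hnx δ
  rw [Λ'.symm β α, Λ'.symm γ α, Λ'.symm δ α, qα, eab, eac, ead] at nα
  rw [Λ'.symm γ β, Λ'.symm δ β, qβ, eab, ebc, ebd] at nβ
  rw [Λ'.symm δ γ, qγ, eac, ebc, ecd] at nγ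
  rw [qδ, ead, ebd, ecd] at nδ
  have nn : 2 * Λ'.q n = Λ'.b n α + (Λ'.b n β + (Λ'.b n γ + Λ'.b n δ)) := by
    rw [← Λ'.add_right, ← Λ'.add_right, ← Λ'.add_right, hn, Λ'.add_right]
    unfold Lat.q; ring
  have qn : Λ'.q n = - (Λ.b B D + Λ.b B E + Λ.b D E) := by linarith
  have hn0 : n ≠ 0 := by
    rintro rfl
    rw [Λ'.q_zero] at qn
    linarith
  have qβn : Λ'.q (β - n) = - (Λ.b A B + Λ.b D E) := by
    rw [Λ'.q_sub, Λ'.symm β n, hb.2.1]; linarith
  have qγn : Λ'.q (γ - n) = - (Λ.b A D + Λ.b B E) := by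
    rw [Λ'.q_sub, Λ'.symm γ n, hc.2.1]; linarith
  have qδn : Λ'.q (δ - n) = - (Λ.b A E + Λ.b B D) := by
    rw [Λ'.q_sub, Λ'.symm δ n, hd.2.1]; linarith
  set X : Fin 5 → L' := ![n, β - n, γ - n, δ - n, α] with hX
  have hX0 : ∀ t, X t ≠ 0 := by
    intro t
    fin_cases t
    · exact hn0
    · show β - n ≠ 0
      intro h; rw [h, Λ'.q_zero] at qβn; linarith
    · show γ - n ≠ 0
      intro h; rw [h, Λ'.q_zero] at qγn; linarith
    · show δ - n ≠ 0
      intro h; rw [h, Λ'.q_zero] at qδn; linarith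
    · exact ha.1.1
  have hXs : ∑ t, X t = 0 := by
    have h1 : ∑ t, X t = n + (β - n) + (γ - n) + (δ - n) + α := by
      simp only [hX, Fin.sum_univ_five, Matrix.cons_val]
    rw [h1]
    have h2 : n + (β - n) + (γ - n) + (δ - n) + α = (α + (β + (γ + δ))) - (n + n) := by abel
    rw [h2, hn, sub_self]
  have hXw : ∑ t, Λ'.q (X t) ≤ ω := by
    have h1 : ∑ t, Λ'.q (X t) = Λ'.q n + Λ'.q (β - n) + Λ'.q (γ - n) + Λ'.q (δ - n) + Λ'.q α := by
      simp only [hX, Fin.sum_univ_five, Matrix.cons_val]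
    rw [h1, qn, qβn, qγn, qδn, ha.2.1]
    linarith
  have hXb : ¬ Good Λ' Λ (Set.range X) := by
    intro hg
    have mX : ∀ i, X i ∈ AddSubgroup.closure (Set.range X) :=
      fun i => AddSubgroup.subset_closure ⟨i, rfl⟩
    have m0 : n ∈ AddSubgroup.closure (Set.range X) := mX 0
    have m1 : β - n ∈ AddSubgroup.closure (Set.range X) := mX 1
    have m2 : γ - n ∈ AddSubgroup.closure (Set.range X) := mX 2
    have m3 : δ - n ∈ AddSubgroup.closure (Set.range X) := mX 3
    obtain ⟨G, hG, hGS⟩ := hg.mono (T := {β, γ, δ}) (by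
      rintro x (rfl | rfl | rfl)
      · have : x = (x - n) + n := by abel
        rw [this]; exact AddSubgroup.add_mem _ m1 m0
      · have : x = (x - n) + n := by abel
        rw [this]; exact AddSubgroup.add_mem _ m2 m0
      · have : x = (x - n) + n := by abel
        rw [this]; exact AddSubgroup.add_mem _ m3 m0)
    obtain ⟨x1, hx1⟩ := hGS β (by simp)
    obtain ⟨x2, hx2⟩ := hGS γ (by simp)
    obtain ⟨x3, hx3⟩ := hGS δ (by simp)
    have f1 := cor_rel hG hx1 (hp.rel b) hb.2.2.symm hb.2.1.symm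
    have f2 := cor_rel hG hx2 (hp.rel c) hc.2.2.symm hc.2.1.symm
    have f3 := cor_rel hG hx3 (hp.rel d) hd.2.2.symm hd.2.1.symm
    have g1 := hG.b hx1 hx2
    have g2 := hG.b hx1 hx3
    have g3 := hG.b hx2 hx3
    rw [ebc] at g1
    rw [ebd] at g2
    rw [ecd] at g3
    rcases f1 with f1 | f1 <;> rcases f2 with f2 | f2 <;> rcases f3 with f3 | f3 <;>
      subst f1 <;> subst f2 <;> subst f3 <;>
      (try simp only [Λ.neg_left, Λ.neg_right, neg_neg] at g1 g2 g3) <;> linarith
  obtain ⟨ι', i1, i2, p', hp', hcard⟩ := refine C.H' X hXs hXw hXb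
  have hc5 := hcard hX0
  rw [Fintype.card_fin] at hc5
  by_cases hall' : ∀ k l, Good Λ' Λ {p' k, p' l}
  · obtain ⟨a', b', c', d', -, -, -, -, -, -, hcov', -⟩ := k4 C.swap hp' hall'
    have h1 : (Finset.univ : Finset ι') ⊆ {a', b', c', d'} := by
      intro z _
      simp only [Finset.mem_insert, Finset.mem_singleton]
      exact hcov' z
    have h2 := Finset.card_le_card h1
    have h3 : ({a', b', c', d'} : Finset ι').card ≤ 4 := Finset.card_le_four
    have h4 : Fintype.card ι' = (Finset.univ : Finset ι').card := rfl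
    omega
  · push Not at hall'
    obtain ⟨k, l, hkl⟩ := hall'
    have hne : k ≠ l := by
      rintro rfl
      apply hkl
      obtain ⟨y, hy⟩ := C.swap.partner (hp'.rel k)
      exact good_pair_of hy.2.2 hy.2.2 hy.2.1 hy.2.1 hy.2.1
    have := pair_card C.swap hp' hne hkl
    omega

/-- There is no bad polygon. -/
theorem no_bad (C : Ctx Λ Λ' ω) (hp : Bad Λ Λ' ω p) : False := by
  by_cases hall : ∀ k l, Good Λ Λ' {p k, p l}
  · exact no_matched C hp hall
  push Not at hall
  obtain ⟨c, d, hun⟩ := hall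
  have hcd : c ≠ d := by
    rintro rfl
    apply hun
    obtain ⟨y, hy⟩ := C.partner (hp.rel c)
    exact good_pair_of hy.2.2 hy.2.2 hy.2.1 hy.2.1 hy.2.1
  have hω := pair_wt C.H hp hcd hun
  obtain ⟨y, y', hy, hy', hle, hlt⟩ := pair_neg C hp hcd hun
  set v := Λ.pr (p c + p d) with hv
  set z := C.N.y v with hz
  have hqz : Λ'.q z ≤ Λ.q (p c + p d) := by
    have h1 : C.M.f v ≤ Λ.q (p c + p d) := C.M.f_le _
    rw [C.hf] at h1
    exact h1
  have hpz : Λ'.pr z = v := C.N.pr_y v
  have hpe : Λ'.pr (y + y') = v := by rw [map_add, hy.2.2, hy'.2.2, hv, map_add]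
  have hqe : Λ.q (p c + p d) < Λ'.q (y + y') := by
    rw [Λ.q_add, Λ'.q_add, hy.2.1, hy'.2.1]; linarith
  have hqe' : Λ.q (p c + p d) < Λ'.q (y - y') := by
    rw [Λ.q_add, Λ'.q_sub, hy.2.1, hy'.2.1]; linarith
  obtain ⟨u, hu⟩ := Λ'.ker ((y + y') + z) (by rw [map_add, hpe, hpz, self_add])
  set w := (y + y') - u with hw
  have huw : u + w = y + y' := by rw [hw]; abel
  have h4 := four_wt Λ' rfl hu.symm hw
  set X : Fin 4 → L' := ![u, y - u, -w, -(y - w)] with hX
  have hXs : ∑ i, X i = 0 := by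
    simp only [hX, Fin.sum_univ_four, Matrix.cons_val]
    have : u + (y - u) + -w + -(y - w) = 0 := by abel
    exact this
  have hXw : ∑ i, Λ'.q (X i) ≤ ω := by
    simp only [hX, Fin.sum_univ_four, Matrix.cons_val]
    rw [hy.2.1, hy'.2.1] at h4
    linarith
  have hX0 : ∀ t, X t ≠ 0 := by
    intro t
    fin_cases t
    · show u ≠ 0
      intro h
      rw [h, add_zero] at hu
      have : z = -(y + y') := eq_neg_of_add_eq_zero_right hu
      rw [this, Λ'.q_neg] at hqz
      linarith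
    · show y - u ≠ 0
      intro h
      have h1 : u = y := (sub_eq_zero.mp h).symm
      rw [h1] at hu
      have : z = y - y' := by
        have h2 : z = (y + y' + z) - y - y' := by abel
        rw [h2, hu]; abel
      rw [this] at hqz
      linarith
    · show -w ≠ 0
      intro h
      have h1 : w = 0 := neg_eq_zero.mp h
      have h2 : u = y + y' := by rw [← huw, h1, add_zero]
      rw [h2] at hu
      have : z = y + y' := add_left_cancel hu
      rw [this] at hqz
      linarith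
    · show -(y - w) ≠ 0
      intro h
      have h1 : y = w := sub_eq_zero.mp (neg_eq_zero.mp h)
      have h2 : u = y' := by
        have : u = (u + w) - w := by abel
        rw [this, huw, ← h1]; abel
      rw [h2] at hu
      have : z = -(y - y') := by
        have h3 : z = (y + y' + z) - y - y' := by abel
        rw [h3, hu]; abel
      rw [this, Λ'.q_neg] at hqz
      linarith
  have hXb : ¬ Good Λ' Λ (Set.range X) := by
    intro hg
    have mX : ∀ i, X i ∈ AddSubgroup.closure (Set.range X) :=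
      fun i => AddSubgroup.subset_closure ⟨i, rfl⟩
    have m0 : u ∈ AddSubgroup.closure (Set.range X) := mX 0
    have m1 : y - u ∈ AddSubgroup.closure (Set.range X) := mX 1
    have m2 : -w ∈ AddSubgroup.closure (Set.range X) := mX 2
    have my : y ∈ AddSubgroup.closure (Set.range X) := by
      have : y = u + (y - u) := by abel
      rw [this]; exact AddSubgroup.add_mem _ m0 m1
    have my' : y' ∈ AddSubgroup.closure (Set.range X) := by
      have : y' = u - (-w) - y := by
        have h5 : u - (-w) - y = (u + w) - y := by abel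
        rw [h5, huw]; abel
      rw [this]; exact AddSubgroup.sub_mem _ (AddSubgroup.sub_mem _ m0 m2) my
    have hg2 : Good Λ' Λ {y, y'} := hg.mono (by
      rintro x (rfl | rfl)
      · exact my
      · exact my')
    rcases good_pair hg2 ⟨hp.rel c, hy.2.1.symm, hy.2.2.symm⟩
      ⟨hp.rel d, hy'.2.1.symm, hy'.2.2.symm⟩ with h | h <;> linarith
  obtain ⟨ι', i1, i2, p', hp', hcard⟩ := refine C.H' X hXs hXw hXb
  have hc4 := hcard hX0
  rw [Fintype.card_fin] at hc4
  by_cases hall' : ∀ k l, Good Λ' Λ {p' k, p' l}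
  · exact no_matched C.swap hp' hall'
  · push Not at hall'
    obtain ⟨k, l, hkl⟩ := hall'
    have hne : k ≠ l := by
      rintro rfl
      apply hkl
      obtain ⟨y, hy⟩ := C.swap.partner (hp'.rel k)
      exact good_pair_of hy.2.2 hy.2.2 hy.2.1 hy.2.1 hy.2.1
    have := pair_card C.swap hp' hne hkl
    omega

end four

end Pool.Agent.J4H35.Vo
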