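import Pool.Agent.J4H35.Vo.Four
import Pool.Agent.K7.H30.VoG

set_option autoImplicit false
open Matrix

namespace Pool.Agent.J4H35.Vo

open Pool.Agent.K7.H30.Vo

section main

variable {L L' V : Type} [AddCommGroup L] [AddCommGroup L'] [AddCommGroup V] [Module (ZMod 2) V]

omit [Module (ZMod 2) V] in
lemma isPWO_range (Λ : Lat L V) : (Set.range Λ.q).IsPWO := by
  rw [Set.isPWO_iff_isWF]
  unfold Set.IsWF
  rw [Set.wellFoundedOn_range]
  refine Subrelation.wf (r := (measure Λ.rk).rel) ?_ (measure Λ.rk).wf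
  intro x y h
  exact Λ.rk_lt h

/-- All polygons embed. -/
theorem all_good (Λ : Lat L V) (Λ' : Lat L' V) (M : Λ.MinSys) (N : Λ'.MinSys)
    (hf : ∀ v, M.f v = N.f v) (ι : Type) [Fintype ι] (x : ι → L) (hx : ∑ i, x i = 0) :
    Good Λ Λ' (Set.range x) := by
  classical
  set W : Set ℝ := {w | (∃ (κ : Type) (_ : Fintype κ) (x : κ → L), ∑ i, x i = 0 ∧
      ∑ i, Λ.q (x i) = w ∧ ¬ Good Λ Λ' (Set.range x)) ∨
    (∃ (κ : Type) (_ : Fintype κ) (x : κ → L'), ∑ i, x i = 0 ∧
      ∑ i, Λ'.q (x i) = w ∧ ¬ Good Λ' Λ (Set.range x))} with hW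
  have hWF : W.IsWF := by
    have h1 : (AddSubmonoid.closure (Set.range Λ.q ∪ Set.range Λ'.q) : Set ℝ).IsPWO := by
      apply Set.IsPWO.addSubmonoid_closure
      · rintro r (⟨x, rfl⟩ | ⟨x, rfl⟩)
        · exact Λ.q_nonneg x
        · exact Λ'.q_nonneg x
      · exact (isPWO_range Λ).union (isPWO_range Λ')
    refine h1.isWF.mono ?_
    rintro w (⟨κ, _, x, -, rfl, -⟩ | ⟨κ, _, x, -, rfl, -⟩)
    · apply AddSubmonoid.sum_mem
      intro i _
      exact AddSubmonoid.subset_closure (Or.inl ⟨x i, rfl⟩)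
    · apply AddSubmonoid.sum_mem
      intro i _
      exact AddSubmonoid.subset_closure (Or.inr ⟨x i, rfl⟩)
  by_contra hbad
  have hne : W.Nonempty := ⟨_, Or.inl ⟨ι, inferInstance, x, hx, rfl, hbad⟩⟩
  set ω := hWF.min hne with hω
  have hmem : ω ∈ W := hWF.min_mem hne
  have hmin : ∀ w ∈ W, ¬ w < ω := fun w hw => hWF.not_lt_min hne hw
  have H : Light Λ Λ' ω := by
    intro κ _ z hz hlt
    by_contra hb
    exact hmin _ (Or.inl ⟨κ, inferInstance, z, hz, rfl, hb⟩) hlt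
  have H' : Light Λ' Λ ω := by
    intro κ _ z hz hlt
    by_contra hb
    exact hmin _ (Or.inr ⟨κ, inferInstance, z, hz, rfl, hb⟩) hlt
  have C : Ctx Λ Λ' ω := ⟨M, N, hf, H, H'⟩
  rcases hmem with ⟨κ, _, z, hz, hw, hb⟩ | ⟨κ, _, z, hz, hw, hb⟩
  · obtain ⟨ι', _, _, p, hp, -⟩ := refine H z hz (le_of_eq hw) hb
    exact no_bad C hp
  · obtain ⟨ι', _, _, p, hp, -⟩ := refine H' z hz (le_of_eq hw) hb
    exact no_bad C.swap hp

/-- Equal vonorms give an isometry. -/
theorem exists_isometry' (Λ : Lat L V) (Λ' : Lat L' V) (M : Λ.MinSys) (N : Λ'.MinSys)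
    (hf : ∀ v, M.f v = N.f v) {m : ℕ} (g : Fin m → L)
    (hg : AddSubgroup.closure (Set.range g) = ⊤) :
    ∃ e : L ≃+ L', ∀ z, Λ'.q (e z) = Λ.q z := by
  have h1 := all_good Λ Λ' M N hf (Fin m ⊕ Fin m) (Sum.elim g (fun i => - g i)) (by
    rw [Fintype.sum_sum_type]
    simp)
  obtain ⟨G, hG, hGS⟩ := h1.mono (T := Set.univ) (by
    intro x _
    have : x ∈ (⊤ : AddSubgroup L) := trivial
    rw [← hg] at this
    refine AddSubgroup.closure_mono ?_ this
    rintro _ ⟨i, rfl⟩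
    exact ⟨Sum.inl i, rfl⟩)
  choose φ hφ using fun x => hGS x (Set.mem_univ x)
  have huniq : ∀ x x' x'', (x, x') ∈ G → (x, x'') ∈ G → x' = x'' := by
    intro x x' x'' h1 h2
    have h3 := G.sub_mem h1 h2
    have h4 := (hG _ h3).1
    simp only [Prod.fst_sub, Prod.snd_sub, sub_self, Λ.q_zero] at h4
    exact sub_eq_zero.mp (Λ'.eq_zero_of_q (le_of_eq h4))
  have hadd : ∀ x y, φ (x + y) = φ x + φ y := by
    intro x y
    exact huniq (x + y) _ _ (hφ _) (G.add_mem (hφ x) (hφ y))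
  set Φ : L →+ L' := AddMonoidHom.mk' φ hadd with hΦ
  have hΦq : ∀ x, Λ'.q (Φ x) = Λ.q x := fun x => (hG _ (hφ x)).1
  have hinj : Function.Injective Φ := by
    rw [injective_iff_map_eq_zero]
    intro x hx
    apply Λ.eq_zero_of_q
    rw [← hΦq, hx, Λ'.q_zero]
  have hrel : ∀ y', Rel Λ' y' → y' ∈ Φ.range := by
    intro y' hy'
    have h2 := rel_transfer N M (fun v => (hf v).symm) hy'
    have h3 := cor_rel hG (hφ (M.y (Λ'.pr y'))) hy' (M.pr_y _).symm h2.2.symm
    rcases h3 with h3 | h3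
    · exact ⟨M.y (Λ'.pr y'), h3⟩
    · refine ⟨- M.y (Λ'.pr y'), ?_⟩
      rw [map_neg]
      show - φ (M.y (Λ'.pr y')) = y'
      rw [h3, neg_neg]
  have hsurj : Function.Surjective Φ := by
    intro z
    obtain ⟨l, hl1, hl2, -⟩ := exists_rep Λ' z
    have : z ∈ Φ.range := by
      rw [← hl2]
      apply AddSubgroup.list_sum_mem
      intro r hr
      exact hrel r (hl1 r hr)
    exact this
  exact ⟨AddEquiv.ofBijective Φ ⟨hinj, hsurj⟩, hΦq⟩

end main

section matrix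

variable {n : ℕ}

/-- Main theorem for matrices. -/
theorem main_matrix' {A B : Matrix (Fin n) (Fin n) ℝ} (hA : A.PosDef) (hB : B.PosDef)
    (h : ∀ S : Finset (Fin n),
        (⨅ x : Fin n → ℤ,
          dotProduct (fun i => (x i : ℝ) - (if i ∈ S then (1/2 : ℝ) else 0))
            (A.mulVec (fun i => (x i : ℝ) - (if i ∈ S then (1/2 : ℝ) else 0))))
        = (⨅ x : Fin n → ℤ,
          dotProduct (fun i => (x i : ℝ) - (if i ∈ S then (1/2 : ℝ) else 0))
            (B.mulVec (fun i => (x i : ℝ) - (if i ∈ S then (1/2 : ℝ) else 0))))) :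
    ∃ U : Matrix (Fin n) (Fin n) ℤ, IsUnit U.det ∧
        B = (U.map (Int.cast : ℤ → ℝ))ᵀ * A * U.map (Int.cast : ℤ → ℝ) := by
  obtain ⟨M⟩ := (latOf hA).exists_minSys
  obtain ⟨N⟩ := (latOf hB).exists_minSys
  have hf : ∀ v, M.f v = N.f v := by
    intro v
    obtain ⟨S, rfl⟩ := cls_surj v
    have h1 := h S
    rw [tcvp_eq hA M S, tcvp_eq hB N S] at h1
    linarith
  obtain ⟨e, he⟩ := exists_isometry' (latOf hA) (latOf hB) M N hf
    (fun i : Fin n => (Pi.single i 1 : Fin n → ℤ)) (by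
      rw [eq_top_iff]
      intro x _
      have hx : x = ∑ i, x i • (Pi.single i 1 : Fin n → ℤ) := by
        funext j
        simp [Finset.sum_apply, Pi.single_apply]
      rw [hx]
      apply AddSubgroup.sum_mem
      intro i _
      apply AddSubgroup.zsmul_mem
      exact AddSubgroup.subset_closure ⟨i, rfl⟩)
  set g : (Fin n → ℤ) ≃ₗ[ℤ] (Fin n → ℤ) := e.symm.toIntLinearEquiv with hg
  have hgq : ∀ z, (latOf hA).q (g z) = (latOf hB).q z := by
    intro z
    have h1 := he (e.symm z)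
    rw [e.apply_symm_apply] at h1
    exact h1.symm
  have hgadd : ∀ x y, g (x + y) = g x + g y := fun x y => map_add g x y
  have hgb : ∀ x y, (latOf hB).b x y = (latOf hA).b (g x) (g y) := by
    intro x y
    have h1 := hgq (x + y)
    rw [hgadd, Lat.q_add, Lat.q_add, hgq, hgq] at h1
    linarith
  refine ⟨LinearMap.toMatrix' (g : (Fin n → ℤ) →ₗ[ℤ] (Fin n → ℤ)), ?_, ?_⟩
  · rw [LinearMap.det_toMatrix']
    exact LinearEquiv.isUnit_det' g
  · ext i j
    have h1 := hgb (Pi.single i 1) (Pi.single j 1)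
    have hc : ∀ k : Fin n, cv (Pi.single k 1 : Fin n → ℤ) = Pi.single k 1 := by
      intro k
      funext l
      unfold cv
      by_cases hkl : l = k
      · subst hkl; simp
      · simp [hkl]
    have hB1 : (latOf hB).b (Pi.single i 1) (Pi.single j 1) = B i j := by
      show rb B (cv (Pi.single i 1)) (cv (Pi.single j 1)) = B i j
      rw [hc, hc]
      unfold rb
      rw [single_one_dotProduct, mulVec_single_one]
      rfl
    have hU : ∀ k : Fin n, cv (g (Pi.single k 1)) =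
        ((LinearMap.toMatrix' (g : (Fin n → ℤ) →ₗ[ℤ] (Fin n → ℤ))).map
          (Int.cast : ℤ → ℝ)).col k := by
      intro k
      funext l
      simp [cv, LinearMap.toMatrix'_apply]
    have hA1 : (latOf hA).b (g (Pi.single i 1)) (g (Pi.single j 1)) =
        (((LinearMap.toMatrix' (g : (Fin n → ℤ) →ₗ[ℤ] (Fin n → ℤ))).map
          (Int.cast : ℤ → ℝ))ᵀ * A * ((LinearMap.toMatrix' (g : (Fin n → ℤ) →ₗ[ℤ] (Fin n → ℤ))).map
          (Int.cast : ℤ → ℝ))) i j := by
      show rb A (cv (g (Pi.single i 1))) (cv (g (Pi.single j 1))) = _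
      rw [hU, hU]
      unfold rb
      rw [Matrix.mul_assoc, Matrix.mul_apply]
      rfl
    rw [← hB1, h1, hA1]

end matrix

end Pool.Agent.J4H35.Vo
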