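import Pool.Agent.J4H35.Vo.Base

set_option autoImplicit false

namespace Pool.Agent.J4H35.Vo

open Pool.Agent.K7.H30.Vo

section pair

variable {L L' V : Type} [AddCommGroup L] [AddCommGroup L'] [AddCommGroup V] [Module (ZMod 2) V]

/-- The common context. -/
structure Ctx (Λ : Lat L V) (Λ' : Lat L' V) (ω : ℝ) where
  M : Λ.MinSys
  N : Λ'.MinSys
  hf : ∀ v, M.f v = N.f v
  H : Light Λ Λ' ω
  H' : Light Λ' Λ ω

/-- Exchange of the two lattices. -/
def Ctx.swap {Λ : Lat L V} {Λ' : Lat L' V} {ω : ℝ} (C : Ctx Λ Λ' ω) : Ctx Λ' Λ ω :=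
  ⟨C.N, C.M, fun v => (C.hf v).symm, C.H', C.H⟩

variable {Λ : Lat L V} {Λ' : Lat L' V} {ω : ℝ}

lemma Ctx.partner (C : Ctx Λ Λ' ω) {y : L} (hy : Rel Λ y) :
    ∃ y' : L', Rel Λ' y' ∧ Λ'.q y' = Λ.q y ∧ Λ'.pr y' = Λ.pr y :=
  ⟨C.N.y (Λ.pr y), (rel_transfer C.M C.N C.hf hy).1, (rel_transfer C.M C.N C.hf hy).2, C.N.pr_y _⟩

omit [Module (ZMod 2) V] in
lemma b_sum_left (Λ : Lat L V) {ι : Type} (s : Finset ι) (p : ι → L) (y : L) :
    Λ.b (∑ i ∈ s, p i) y = ∑ i ∈ s, Λ.b (p i) y := by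
  classical
  induction s using Finset.induction_on with
  | empty => simp [Λ.zero_left]
  | insert a s ha ih => rw [Finset.sum_insert ha, Finset.sum_insert ha, Λ.add_left, ih]

omit [Module (ZMod 2) V] in
lemma b_sum_right (Λ : Lat L V) {ι : Type} (s : Finset ι) (p : ι → L) (y : L) :
    Λ.b y (∑ i ∈ s, p i) = ∑ i ∈ s, Λ.b y (p i) := by
  rw [Λ.symm, b_sum_left]
  exact Finset.sum_congr rfl (fun i _ => Λ.symm _ _)

variable {ι : Type} [Fintype ι] [DecidableEq ι] {p : ι → L}

omit [Module (ZMod 2) V] in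
/-- Merging two vectors with negative product. -/
lemma merge_good (H : Light Λ Λ' ω) (hp : Bad Λ Λ' ω p) {k l : ι} (hkl : k ≠ l)
    (hneg : Λ.b (p k) (p l) < 0) : ∀ T : Set L, (∀ x ∈ T, ∃ i, i ≠ k ∧ i ≠ l ∧ x = p i) →
      Good Λ Λ' T := by
  intro T hT
  set X : ι → L := fun i => p i + (if i = k then p l else 0) - (if i = l then p l else 0) with hX
  have hsum : ∑ i, X i = 0 := by
    simp only [hX, Finset.sum_sub_distrib, Finset.sum_add_distrib, Finset.sum_ite_eq',
      Finset.mem_univ, if_true, hp.sum]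
    abel
  have hpt : ∀ i, Λ.q (X i) = Λ.q (p i) + (if i = k then Λ.q (p l) + 2 * Λ.b (p k) (p l) else 0)
      - (if i = l then Λ.q (p l) else 0) := by
    intro i
    simp only [hX]
    by_cases h1 : i = k
    · subst h1
      rw [if_pos rfl, if_neg hkl, if_pos rfl, if_neg hkl, sub_zero, sub_zero, Λ.q_add]; ring
    · by_cases h2 : i = l
      · subst h2
        rw [if_neg h1, if_pos rfl, if_neg h1, if_pos rfl, add_zero, sub_self, Λ.q_zero]; ring
      · rw [if_neg h1, if_neg h2, if_neg h1, if_neg h2]; simp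
  have hwt : ∑ i, Λ.q (X i) < ω := by
    simp only [hpt, Finset.sum_sub_distrib, Finset.sum_add_distrib, Finset.sum_ite_eq',
      Finset.mem_univ, if_true, hp.wt]
    linarith
  refine (H ι X hsum hwt).mono ?_
  intro x hx
  obtain ⟨i, h1, h2, rfl⟩ := hT x hx
  have : p i = X i := by simp [hX, h1, h2]
  rw [this]
  exact AddSubgroup.subset_closure ⟨i, rfl⟩

omit [Module (ZMod 2) V] [DecidableEq ι] in
lemma bad_sum_b (hp : Bad Λ Λ' ω p) (y : L) : ∑ i, Λ.b (p i) y = 0 := by
  rw [← b_sum_left, hp.sum, Λ.zero_left]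

omit [Module (ZMod 2) V] in
lemma pair_orth (H : Light Λ Λ' ω) (hp : Bad Λ Λ' ω p) {c d : ι} (hcd : c ≠ d)
    (hun : ¬ Good Λ Λ' {p c, p d}) :
    ∀ k l, k ≠ c → k ≠ d → l ≠ c → l ≠ d → k ≠ l → Λ.b (p k) (p l) = 0 := by
  have hnn : ∀ k l, k ≠ c → k ≠ d → l ≠ c → l ≠ d → k ≠ l → 0 ≤ Λ.b (p k) (p l) := by
    intro k l h1 h2 h3 h4 h5
    by_contra hneg
    push Not at hneg
    apply hun
    apply merge_good H hp h5 hneg
    rintro x (rfl | rfl)
    · exact ⟨c, h1.symm, h3.symm, rfl⟩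
    · exact ⟨d, h2.symm, h4.symm, rfl⟩
  intro k l h1 h2 h3 h4 h5
  apply le_antisymm _ (hnn k l h1 h2 h3 h4 h5)
  by_contra hpos
  push Not at hpos
  apply hun
  set X : ι → L := fun i => p i + (if i = c then p k else 0) + (if i = d then p k else 0)
    - (if i = k then p k + p k else 0) with hX
  have hsum : ∑ i, X i = 0 := by
    simp only [hX, Finset.sum_sub_distrib, Finset.sum_add_distrib, Finset.sum_ite_eq',
      Finset.mem_univ, if_true, hp.sum]
    abel
  have hpt : ∀ i, Λ.q (X i) = Λ.q (p i) + (if i = c then Λ.q (p k) + 2 * Λ.b (p c) (p k) else 0)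
      + (if i = d then Λ.q (p k) + 2 * Λ.b (p d) (p k) else 0) := by
    intro i
    simp only [hX]
    by_cases e1 : i = c
    · subst e1
      rw [if_pos rfl, if_neg hcd, if_neg h1.symm, if_pos rfl, if_neg hcd, sub_zero, add_zero,
        add_zero, Λ.q_add]; ring
    · by_cases e2 : i = d
      · subst e2
        rw [if_neg e1, if_pos rfl, if_neg h2.symm, if_neg e1, if_pos rfl, sub_zero, add_zero,
          add_zero, Λ.q_add]; ring
      · by_cases e3 : i = k
        · subst e3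
          rw [if_neg e1, if_neg e2, if_pos rfl, if_neg e1, if_neg e2, add_zero, add_zero,
            add_zero, add_zero, sub_add_cancel_left, Λ.q_neg]
        · rw [if_neg e1, if_neg e2, if_neg e3, if_neg e1, if_neg e2]; simp
  have hlt : Λ.b (p c) (p k) + Λ.b (p d) (p k) + Λ.q (p k) < 0 := by
    have h0 := bad_sum_b hp (p k)
    set F : ι → ℝ := fun i => Λ.b (p i) (p k) - (if i = c then Λ.b (p c) (p k) else 0)
      - (if i = d then Λ.b (p d) (p k) else 0) - (if i = k then Λ.q (p k) else 0) with hF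
    have hFs : ∑ i, F i = 0 - Λ.b (p c) (p k) - Λ.b (p d) (p k) - Λ.q (p k) := by
      simp only [hF, Finset.sum_sub_distrib, Finset.sum_ite_eq', Finset.mem_univ, if_true, h0]
    have hF0 : ∀ i ∈ Finset.univ, 0 ≤ F i := by
      intro i _
      simp only [hF]
      by_cases e1 : i = c
      · subst e1
        rw [if_pos rfl, if_neg hcd, if_neg h1.symm]; simp
      · by_cases e2 : i = d
        · subst e2
          rw [if_neg e1, if_pos rfl, if_neg h2.symm]; simp
        · by_cases e3 : i = k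
          · subst e3
            rw [if_neg e1, if_neg e2, if_pos rfl]
            have : Λ.b (p i) (p i) = Λ.q (p i) := rfl
            rw [this]; simp
          · rw [if_neg e1, if_neg e2, if_neg e3]
            have := hnn i k e1 e2 h1 h2 e3
            linarith
    have hFl := Finset.single_le_sum hF0 (Finset.mem_univ l)
    have hFl' : F l = Λ.b (p k) (p l) := by
      simp only [hF]
      rw [if_neg h3, if_neg h4, if_neg h5.symm, Λ.symm]; ring
    rw [hFs, hFl'] at hFl
    linarith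
  have hwt : ∑ i, Λ.q (X i) < ω := by
    simp only [hpt, Finset.sum_add_distrib, Finset.sum_ite_eq',
      Finset.mem_univ, if_true, hp.wt]
    linarith
  refine (H ι X hsum hwt).mono ?_
  have hXk : X k = - p k := by
    simp only [hX, if_neg h1, if_neg h2, if_true]; abel
  have hXc : X c = p c + p k := by
    simp only [hX, if_neg hcd, if_neg h1.symm, if_true]; abel
  have hXd : X d = p d + p k := by
    simp only [hX, if_neg hcd.symm, if_neg h2.symm, if_true]; abel
  have mX : ∀ i, X i ∈ AddSubgroup.closure (Set.range X) :=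
    fun i => AddSubgroup.subset_closure ⟨i, rfl⟩
  rintro x (rfl | rfl)
  · have : p c = X c + X k := by rw [hXc, hXk]; abel
    rw [this]; exact AddSubgroup.add_mem _ (mX _) (mX _)
  · have : p d = X d + X k := by rw [hXd, hXk]; abel
    rw [this]; exact AddSubgroup.add_mem _ (mX _) (mX _)

omit [Module (ZMod 2) V] in
lemma pair_wt (H : Light Λ Λ' ω) (hp : Bad Λ Λ' ω p) {c d : ι} (hcd : c ≠ d)
    (hun : ¬ Good Λ Λ' {p c, p d}) :
    ω = Λ.q (p c) + Λ.q (p d) + Λ.q (p c + p d) := by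
  have horth := pair_orth H hp hcd hun
  set x := p c + p d with hx
  have key : ∀ k, k ≠ c → k ≠ d → Λ.b x (p k) + Λ.q (p k) = 0 := by
    intro k h1 h2
    have h0 := bad_sum_b hp (p k)
    have hpt : ∀ i, Λ.b (p i) (p k) = (if i = c then Λ.b (p c) (p k) else 0)
      + (if i = d then Λ.b (p d) (p k) else 0) + (if i = k then Λ.q (p k) else 0) := by
      intro i
      by_cases e1 : i = c
      · subst e1
        rw [if_pos rfl, if_neg hcd, if_neg h1.symm]; simp
      · by_cases e2 : i = d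
        · subst e2
          rw [if_neg e1, if_pos rfl, if_neg h2.symm]; simp
        · by_cases e3 : i = k
          · subst e3
            rw [if_neg e1, if_neg e2, if_pos rfl]
            have : Λ.b (p i) (p i) = Λ.q (p i) := rfl
            rw [this]; simp
          · rw [if_neg e1, if_neg e2, if_neg e3]
            have := horth i k e1 e2 h1 h2 e3
            rw [this]; simp
    rw [Finset.sum_congr rfl (fun i _ => hpt i)] at h0
    simp only [Finset.sum_add_distrib, Finset.sum_ite_eq', Finset.mem_univ, if_true] at h0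
    rw [hx, Λ.add_left]; exact h0
  have h1 : ∑ i, (Λ.b x (p i) + Λ.q (p i)) = ω := by
    rw [Finset.sum_add_distrib, ← b_sum_right, hp.sum, Λ.zero_right, hp.wt, zero_add]
  have hpt : ∀ i, Λ.b x (p i) + Λ.q (p i) = (if i = c then Λ.b x (p c) + Λ.q (p c) else 0)
      + (if i = d then Λ.b x (p d) + Λ.q (p d) else 0) := by
    intro i
    by_cases e1 : i = c
    · subst e1
      rw [if_pos rfl, if_neg hcd]; simp
    · by_cases e2 : i = d
      · subst e2
        rw [if_neg e1, if_pos rfl]; simp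
      · rw [if_neg e1, if_neg e2, key i e1 e2]; simp
  rw [Finset.sum_congr rfl (fun i _ => hpt i)] at h1
  simp only [Finset.sum_add_distrib, Finset.sum_ite_eq', Finset.mem_univ, if_true] at h1
  have h2 : Λ.b x (p c) + Λ.b x (p d) = Λ.q x := by
    rw [← Λ.add_right, ← hx]; rfl
  linarith

omit [Module (ZMod 2) V] in
/-- The four half sums. -/
lemma four_wt (Λ : Lat L V) {a b x z u w : L} (hx : x = a + b) (hu : u + u = x + z)
    (hw : w = x - u) : Λ.q u + Λ.q (a - u) + Λ.q (-w) + Λ.q (-(a - w)) =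
      Λ.q a + Λ.q b + Λ.q z := by
  have huw : u + w = x := by rw [hw]; abel
  have huw' : u - w = z := by
    have : u - w = (u + u) - x := by rw [hw]; abel
    rw [this, hu]; abel
  have e1 : Λ.q x = Λ.q u + Λ.q w + 2 * Λ.b u w := by rw [← Λ.q_add, huw]
  have e2 : Λ.q z = Λ.q u + Λ.q w - 2 * Λ.b u w := by rw [← Λ.q_sub, huw']
  have e3 : Λ.q x = Λ.q a + Λ.q b + 2 * Λ.b a b := by rw [← Λ.q_add, hx]
  have e4 : Λ.b a u + Λ.b a w = Λ.q a + Λ.b a b := by
    rw [← Λ.add_right, huw, hx, Λ.add_right]; rfl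
  rw [Λ.q_neg, Λ.q_neg, Λ.q_sub, Λ.q_sub]
  linarith

lemma pair_min (H : Light Λ Λ' ω) (hp : Bad Λ Λ' ω p) {c d : ι} (hcd : c ≠ d)
    (hun : ¬ Good Λ Λ' {p c, p d}) {z : L} (hz : Λ.pr z = Λ.pr (p c + p d)) :
    Λ.q (p c + p d) ≤ Λ.q z := by
  by_contra hlt
  push Not at hlt
  have hω := pair_wt H hp hcd hun
  obtain ⟨u, hu⟩ := Λ.ker ((p c + p d) + z) (by rw [map_add, hz, self_add])
  set w := (p c + p d) - u with hw
  have h4 := four_wt Λ rfl hu.symm hw
  set X : Fin 4 → L := ![u, p c - u, -w, -(p c - w)] with hX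
  have huw : u + w = p c + p d := by rw [hw]; abel
  have hsum : ∑ i, X i = 0 := by
    simp only [hX, Fin.sum_univ_four, Matrix.cons_val]
    have : u + (p c - u) + -w + -(p c - w) = 0 := by abel
    exact this
  have hwt : ∑ i, Λ.q (X i) < ω := by
    simp only [hX, Fin.sum_univ_four, Matrix.cons_val]
    linarith
  apply hun
  refine (H (Fin 4) X hsum hwt).mono ?_
  have mX : ∀ i, X i ∈ AddSubgroup.closure (Set.range X) :=
    fun i => AddSubgroup.subset_closure ⟨i, rfl⟩
  have m0 : u ∈ AddSubgroup.closure (Set.range X) := mX 0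
  have m1 : p c - u ∈ AddSubgroup.closure (Set.range X) := mX 1
  have m2 : -w ∈ AddSubgroup.closure (Set.range X) := mX 2
  have mc : p c ∈ AddSubgroup.closure (Set.range X) := by
    have : p c = u + (p c - u) := by abel
    rw [this]; exact AddSubgroup.add_mem _ m0 m1
  rintro x (rfl | rfl)
  · exact mc
  · have : p d = u - (-w) - p c := by
      have : u - (-w) - p c = (u + w) - p c := by abel
      rw [this, huw]; abel
    rw [this]; exact AddSubgroup.sub_mem _ (AddSubgroup.sub_mem _ m0 m2) mc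

omit [Module (ZMod 2) V] in
lemma good_pair_of {a b : L} {y y' : L'} (h1 : Λ'.pr y = Λ.pr a) (h2 : Λ'.pr y' = Λ.pr b)
    (h3 : Λ'.q y = Λ.q a) (h4 : Λ'.q y' = Λ.q b) (h5 : Λ'.b y y' = Λ.b a b) :
    Good Λ Λ' {a, b} := by
  have := good_of_gram (Λ := Λ) (Λ' := Λ') (![a, b] : Fin 2 → L) ![y, y'] (by
    intro i; fin_cases i
    · exact h1
    · exact h2) (by
    intro i j
    fin_cases i <;> fin_cases j
    · exact h3
    · exact h5
    · show Λ'.b y' y = Λ.b b a
      rw [Λ'.symm, Λ.symm]; exact h5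
    · exact h4)
  refine this.mono ?_
  rintro x (rfl | rfl)
  · exact AddSubgroup.subset_closure ⟨0, rfl⟩
  · exact AddSubgroup.subset_closure ⟨1, rfl⟩

/-- For an unmatched pair the products are as follows. -/
lemma pair_neg (C : Ctx Λ Λ' ω) (hp : Bad Λ Λ' ω p) {c d : ι} (hcd : c ≠ d)
    (hun : ¬ Good Λ Λ' {p c, p d}) :
    ∃ y y' : L', (Rel Λ' y ∧ Λ'.q y = Λ.q (p c) ∧ Λ'.pr y = Λ.pr (p c)) ∧
      (Rel Λ' y' ∧ Λ'.q y' = Λ.q (p d) ∧ Λ'.pr y' = Λ.pr (p d)) ∧
      Λ'.b y y' ≤ 0 ∧ Λ.b (p c) (p d) < Λ'.b y y' := by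
  obtain ⟨y, hy⟩ := C.partner (hp.rel c)
  obtain ⟨y0, hy0⟩ := C.partner (hp.rel d)
  obtain ⟨y', hy', hle⟩ : ∃ y', (Rel Λ' y' ∧ Λ'.q y' = Λ.q (p d) ∧ Λ'.pr y' = Λ.pr (p d)) ∧
      Λ'.b y y' ≤ 0 := by
    by_cases h : Λ'.b y y0 ≤ 0
    · exact ⟨y0, hy0, h⟩
    · refine ⟨-y0, ⟨rel_neg hy0.1, by rw [Λ'.q_neg]; exact hy0.2.1, by
        rw [map_neg, neg_eq]; exact hy0.2.2⟩, ?_⟩
      rw [Λ'.neg_right]; linarith
  refine ⟨y, y', hy, hy', hle, ?_⟩
  have h1 : Λ.q (p c + p d) ≤ Λ'.q (y + y') := by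
    have e1 : Λ.q (p c + p d) ≤ C.M.f (Λ.pr (p c + p d)) := pair_min C.H hp hcd hun (C.M.pr_y _)
    have e2 : C.N.f (Λ.pr (p c + p d)) ≤ Λ'.q (y + y') := by
      apply C.N.f_le'
      rw [map_add, map_add, hy.2.2, hy'.2.2]
    rw [← C.hf] at e2
    exact e1.trans e2
  rw [Λ.q_add, Λ'.q_add, hy.2.1, hy'.2.1] at h1
  have h2 : Λ.b (p c) (p d) ≤ Λ'.b y y' := by linarith
  apply lt_of_le_of_ne h2
  intro h3
  exact hun (good_pair_of hy.2.2 hy'.2.2 hy.2.1 hy'.2.1 h3.symm)

omit [Module (ZMod 2) V] in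
/-- Matched pairs have the same product up to sign. -/
lemma good_pair {a b : L} {y y' : L'} (h : Good Λ Λ' {a, b})
    (hy : Rel Λ' y ∧ Λ'.q y = Λ.q a ∧ Λ'.pr y = Λ.pr a)
    (hy' : Rel Λ' y' ∧ Λ'.q y' = Λ.q b ∧ Λ'.pr y' = Λ.pr b) :
    Λ'.b y y' = Λ.b a b ∨ Λ'.b y y' = - Λ.b a b := by
  obtain ⟨G, hG, hS⟩ := h
  obtain ⟨a', ha'⟩ := hS a (Or.inl rfl)
  obtain ⟨b', hb'⟩ := hS b (Or.inr rfl)
  have h1 := cor_rel hG ha' hy.1 hy.2.2 hy.2.1
  have h2 := cor_rel hG hb' hy'.1 hy'.2.2 hy'.2.1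
  have h3 := hG.b ha' hb'
  rcases h1 with e1 | e1 <;> rcases h2 with e2 | e2 <;> rw [e1, e2] at h3
  · exact Or.inl h3
  · rw [Λ'.neg_right] at h3; right; linarith
  · rw [Λ'.neg_left] at h3; right; linarith
  · rw [Λ'.neg_left, Λ'.neg_right] at h3; left; linarith

/-- Existence of a further unmatched pair. -/
lemma pair_next (C : Ctx Λ Λ' ω) (hp : Bad Λ Λ' ω p) {c d : ι} (hcd : c ≠ d)
    (hun : ¬ Good Λ Λ' {p c, p d}) : ∃ k, k ≠ c ∧ k ≠ d ∧ ¬ Good Λ Λ' {p c, p k} := by
  by_contra hno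
  push Not at hno
  have horth := pair_orth C.H hp hcd hun
  choose y hy using fun i => C.partner (hp.rel i)
  -- choice of signs
  have hr : ∀ k, ∃ r : L', (Rel Λ' r ∧ Λ'.q r = Λ.q (p k) ∧ Λ'.pr r = Λ.pr (p k)) ∧
      (k ≠ d → Λ'.b (y c) r = Λ.b (p c) (p k)) := by
    intro k
    by_cases hkd : k = d
    · exact ⟨y k, hy k, fun h => absurd hkd h⟩
    by_cases hkc : k = c
    · subst hkc
      exact ⟨y k, hy k, fun _ => (hy k).2.1⟩
    rcases good_pair (hno k hkc hkd) (hy c) (hy k) with h | h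
    · exact ⟨y k, hy k, fun _ => h⟩
    · refine ⟨-y k, ⟨rel_neg (hy k).1, by rw [Λ'.q_neg]; exact (hy k).2.1, by
        rw [map_neg, neg_eq]; exact (hy k).2.2⟩, fun _ => ?_⟩
      rw [Λ'.neg_right, h, neg_neg]
  choose r hr1 hr2 using hr
  -- all pairs away from `c, d` are matched
  have hm : ∀ k l, k ≠ c → k ≠ d → l ≠ c → l ≠ d → k ≠ l → Λ'.b (r k) (r l) = 0 := by
    intro k l h1 h2 h3 h4 h5
    have h0 := horth k l h1 h2 h3 h4 h5
    have hg : Good Λ Λ' {p k, p l} := by
      by_contra hg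
      obtain ⟨a, b, -, -, h6, h7⟩ := pair_neg C hp h5 hg
      rw [h0] at h7
      linarith
    rcases good_pair hg (hr1 k) (hr1 l) with h | h
    · rw [h, h0]
    · rw [h, h0, neg_zero]
  set r' : ι → L' := fun k => if k = c then y c else r k with hr'
  have hgood : Good Λ Λ' (Set.range (fun k : {k : ι // k ≠ d} => p k)) := by
    apply good_of_gram (fun k : {k : ι // k ≠ d} => p k) (fun k : {k : ι // k ≠ d} => r' k)
    · rintro ⟨k, hk⟩
      simp only [hr']
      split_ifs with h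
      · rw [h]; exact (hy c).2.2
      · exact (hr1 k).2.2
    · rintro ⟨k, hk⟩ ⟨l, hl⟩
      simp only [hr']
      by_cases h1 : k = c
      · subst h1
        rw [if_pos rfl]
        by_cases h2 : l = k
        · subst h2
          rw [if_pos rfl]; exact (hy l).2.1
        · rw [if_neg h2]; exact hr2 l hl
      · rw [if_neg h1]
        by_cases h2 : l = c
        · subst h2
          rw [if_pos rfl, Λ'.symm, Λ.symm]; exact hr2 k hk
        · rw [if_neg h2]
          by_cases h3 : k = l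
          · subst h3; exact (hr1 k).2.1
          · rw [hm k l h1 hk h2 hl h3, horth k l h1 hk h2 hl h3]
  apply hp.bad
  refine hgood.mono ?_
  have hmem : ∀ k, k ≠ d →
      p k ∈ AddSubgroup.closure (Set.range (fun k : {k : ι // k ≠ d} => p k)) :=
    fun k hk => AddSubgroup.subset_closure ⟨⟨k, hk⟩, rfl⟩
  rintro _ ⟨k, rfl⟩
  by_cases hkd : k = d
  · subst hkd
    have h1 : p k = - ∑ i ∈ Finset.univ.erase k, p i := by
      have := hp.sum
      rw [← Finset.add_sum_erase _ _ (Finset.mem_univ k)] at this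
      exact eq_neg_of_add_eq_zero_left this
    rw [h1]
    apply AddSubgroup.neg_mem
    apply AddSubgroup.sum_mem
    intro i hi
    exact hmem i (Finset.ne_of_mem_erase hi)
  · exact hmem k hkd

/-- A bad polygon with an unmatched pair is a triangle. -/
lemma pair_card (C : Ctx Λ Λ' ω) (hp : Bad Λ Λ' ω p) {c d : ι} (hcd : c ≠ d)
    (hun : ¬ Good Λ Λ' {p c, p d}) : Fintype.card ι ≤ 3 := by
  have hun' : ¬ Good Λ Λ' {p d, p c} := by rw [Set.pair_comm]; exact hun
  obtain ⟨k, k1, k2, hk⟩ := pair_next C hp hcd hun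
  obtain ⟨k', k1', k2', hk'⟩ := pair_next C hp hcd.symm hun'
  have o1 := pair_orth C.H hp hcd hun
  have o2 := pair_orth C.H hp k1.symm hk
  have o3 := pair_orth C.H hp k1'.symm hk'
  have hkk : k' = k := by
    by_contra hne
    have h1 := o2 d k' hcd.symm (Ne.symm k2) k2' hne k1'.symm
    obtain ⟨a, b, -, -, h6, h7⟩ := pair_neg C hp k1'.symm hk'
    rw [h1] at h7
    linarith
  subst hkk
  have hall : ∀ m, m = c ∨ m = d ∨ m = k' := by
    intro m
    by_contra hno
    push Not at hno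
    obtain ⟨m1, m2, m3⟩ := hno
    have h0 := bad_sum_b hp (p m)
    have hpt : ∀ i, Λ.b (p i) (p m) = if i = m then Λ.q (p m) else 0 := by
      intro i
      split_ifs with h
      · rw [h]; rfl
      · by_cases e1 : i = c
        · subst e1
          exact o3 i m hcd k1.symm m2 m3 (Ne.symm m1)
        · by_cases e2 : i = d
          · subst e2
            exact o2 i m hcd.symm (Ne.symm k2) m1 m3 (Ne.symm m2)
          · exact o1 i m e1 e2 m1 m2 h
    simp only [hpt, Finset.sum_ite_eq', Finset.mem_univ, if_true] at h0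
    exact absurd (Λ.q_pos (hp.rel m).1) (by rw [h0]; exact lt_irrefl _)
  have : (Finset.univ : Finset ι) ⊆ {c, d, k'} := by
    intro m _
    simp only [Finset.mem_insert, Finset.mem_singleton]
    exact hall m
  calc Fintype.card ι = (Finset.univ : Finset ι).card := rfl
    _ ≤ ({c, d, k'} : Finset ι).card := Finset.card_le_card this
    _ ≤ 3 := Finset.card_le_three

end pair

end Pool.Agent.J4H35.Vo
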